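import Pool.Agent.Lib.MP_630b78_co.EH.Main

/-!
# The three seeds of degree two

`QT = ℚ(q,t)`, `qq`, `tt` are `q`, `t`.  A seed of degree two is `x q_2 + y q_1^2`; `s` is a sign (`s = -1` for the signs of the text,
`s = 1` for the corrected signs).
-/

namespace SD

open MvPolynomial EllHall

/-- the seed `x q_2 + y q_1^2` -/
def seed (x y : QT) (μ : Nat.Partition 2) : QT := if μ.parts = {2} then x else y

/-- the seed with `f^(1,1) = s_2 + q s_11` -/
noncomputable def gA (s : QT) : Nat.Partition 2 → QT := seed (s * (tt * (qq - 1) / (1 + qq * tt))) ((1 + tt) / (1 + qq * tt))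

/-- the seed with `f^(1,1) = s_2 + t s_11` -/
noncomputable def gB (s : QT) : Nat.Partition 2 → QT := seed (s * (qq * (tt - 1) / (1 + qq * tt))) ((1 + qq) / (1 + qq * tt))

/-- the seed with `f^(1,1) = s_11` -/
noncomputable def gC (s : QT) : Nat.Partition 2 → QT := seed (s * (1 / (1 + qq * tt))) (-(1 / (1 + qq * tt)))

/-- `f^(k,1)` is Schur positive for all `k ≥ 1` -/
def KPos (Q : ℕ → ℕ → Module.End QT (MvPolynomial ℕ QT)) (σ : ℕ → QT) (c : Nat.Partition 2 → QT) : Prop :=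
  ∀ k : ℕ, 1 ≤ k → ∀ μ : Nat.Partition (1 * 2), IsNN qq tt (sc (ff Q σ c k 1) μ.parts)

/-- the coefficient of `s_ρ` in `bar f^(a,b) - bar f^(b,a)` -/
noncomputable def Dl (Q : ℕ → ℕ → Module.End QT (MvPolynomial ℕ QT)) (σ : ℕ → QT) (c : Nat.Partition 2 → QT) (a b : ℕ)
    (ρ : Multiset ℕ) : QT := barCoeff (ff Q σ c a b) (b * 2) ρ - barCoeff (ff Q σ c b a) (a * 2) ρ

end SD
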