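import Pool.Agent.Lib.MP_630b78_co.SD.Swap

/-!
# Algebraically independent real numbers
-/

namespace SD

open MvPolynomial EllHall Topology Filter

/-- `q`, `t` are algebraically independent -/
def Good (q t : ℝ) : Prop := AlgebraicIndependent ℚ ![q, t]

theorem good_countable {q : ℝ} (hq : Transcendental ℚ q) : {t : ℝ | ¬ Good q t}.Countable := by
  have hx : AlgebraicIndependent ℚ (fun _ : Fin 1 => q) := (algebraicIndependent_unique_type_iff).2 hq
  have hc : Countable (Algebra.adjoin ℚ (Set.range fun _ : Fin 1 => q)) := by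
    have h0 : Countable (MvPolynomial (Fin 1) ℚ) := by
      rw [← Cardinal.mk_le_aleph0_iff]
      refine (MvPolynomial.cardinalMk_le_max_lift).trans ?_
      simp
    rw [Algebra.adjoin_range_eq_range_aeval]
    exact (Set.countable_range _).to_subtype
  refine (Algebraic.countable (Algebra.adjoin ℚ (Set.range fun _ : Fin 1 => q)) ℝ).mono ?_
  intro t ht
  by_contra h
  apply ht
  have h1 : Transcendental (Algebra.adjoin ℚ (Set.range fun _ : Fin 1 => q)) t := h
  have h2 := (hx.option_iff_transcendental t).2 h1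
  have h3 := h2.comp (![some 0, none] : Fin 2 → Option (Fin 1)) (by
    intro i j hij
    fin_cases i <;> fin_cases j <;> simp_all)
  unfold Good
  convert h3 using 1
  funext i
  fin_cases i <;> rfl

theorem trans_countable : {q : ℝ | ¬ Transcendental ℚ q}.Countable := by
  refine (Algebraic.countable ℚ ℝ).mono ?_
  intro q hq
  unfold Transcendental at hq
  exact not_not.1 hq

theorem Good.inj {q0 t0 : ℝ} (h : Good q0 t0) :
    Function.Injective (aeval ![q0, t0] : MvPolynomial (Fin 2) ℚ →ₐ[ℚ] ℝ).toRingHom := h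

/-- the embedding with `q ↦ q0`, `t ↦ t0` -/
noncomputable def emb {q0 t0 : ℝ} (h : Good q0 t0) : QT →+* ℝ :=
  IsFractionRing.lift (A := MvPolynomial (Fin 2) ℚ) (K := QT) (g := (aeval ![q0, t0] : MvPolynomial (Fin 2) ℚ →ₐ[ℚ] ℝ).toRingHom) h.inj

theorem emb_q {q0 t0 : ℝ} (h : Good q0 t0) : emb h qq = q0 := by
  unfold emb qq
  rw [IsFractionRing.lift_algebraMap]
  exact (aeval_X _ _).trans rfl

theorem emb_t {q0 t0 : ℝ} (h : Good q0 t0) : emb h tt = t0 := by
  unfold emb tt
  rw [IsFractionRing.lift_algebraMap]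
  exact (aeval_X _ _).trans rfl

theorem emb_poly {q0 t0 : ℝ} (h : Good q0 t0) (P : MvPolynomial (Fin 2) ℕ) :
    emb h (P.eval₂ (Nat.castRingHom QT) ![qq, tt]) = P.eval₂ (Nat.castRingHom ℝ) ![q0, t0] := by
  rw [MvPolynomial.hom_eval₂]
  congr 1
  · exact RingHom.ext fun n => by simp
  · funext i
    fin_cases i
    · exact emb_q h
    · exact emb_t h

theorem emb_polyZ {q0 t0 : ℝ} (h : Good q0 t0) (P : MvPolynomial (Fin 2) ℤ) :
    emb h (P.eval₂ (Int.castRingHom QT) ![qq, tt]) = P.eval₂ (Int.castRingHom ℝ) ![q0, t0] := by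
  rw [MvPolynomial.hom_eval₂]
  congr 1
  · exact RingHom.ext fun n => by simp
  · funext i
    fin_cases i
    · exact emb_q h
    · exact emb_t h

theorem cont_polyZ (P : MvPolynomial (Fin 2) ℤ) (q0 : ℝ) : Continuous fun t : ℝ => P.eval₂ (Int.castRingHom ℝ) ![q0, t] := by
  have h : ∀ t : ℝ, P.eval₂ (Int.castRingHom ℝ) ![q0, t] = eval ![q0, t] (map (Int.castRingHom ℝ) P) := fun t => by
    rw [eval_map]
  simp only [h]
  refine (MvPolynomial.continuous_eval _).comp ?_
  refine continuous_pi fun i => ?_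
  fin_cases i
  · exact continuous_const
  · exact continuous_id

theorem cont_polyZ' (P : MvPolynomial (Fin 2) ℤ) (t0 : ℝ) : Continuous fun q : ℝ => P.eval₂ (Int.castRingHom ℝ) ![q, t0] := by
  have h : ∀ t : ℝ, P.eval₂ (Int.castRingHom ℝ) ![t, t0] = eval ![t, t0] (map (Int.castRingHom ℝ) P) := fun t => by
    rw [eval_map]
  simp only [h]
  refine (MvPolynomial.continuous_eval _).comp ?_
  refine continuous_pi fun i => ?_
  fin_cases i
  · exact continuous_id
  · exact continuous_const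

theorem cont_poly (P : MvPolynomial (Fin 2) ℕ) (q0 : ℝ) : Continuous fun t : ℝ => P.eval₂ (Nat.castRingHom ℝ) ![q0, t] := by
  have h : ∀ t : ℝ, P.eval₂ (Nat.castRingHom ℝ) ![q0, t] = eval ![q0, t] (map (Nat.castRingHom ℝ) P) := fun t => by
    rw [eval_map]
  simp only [h]
  refine (MvPolynomial.continuous_eval _).comp ?_
  refine continuous_pi fun i => ?_
  fin_cases i
  · exact continuous_const
  · exact continuous_id

/-- limits at `1` may be computed along the complement of a countable set -/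
theorem limit_unique {S : Set ℝ} (hS : S.Countable) {f g : ℝ → ℝ} {x y : ℝ} (hf : Tendsto f (𝓝[≠] (1 : ℝ)) (𝓝 x))
    (hg : Tendsto g (𝓝[≠] (1 : ℝ)) (𝓝 y)) (h : ∀ t, t ∉ S → t ≠ 1 → 0 < t → f t = g t) : x = y := by
  have hd : Dense (Sᶜ ∩ {t : ℝ | t ≠ 1}) := by
    have h1 : (S ∪ {1}).Countable := hS.union (Set.countable_singleton 1)
    have h2 := h1.dense_compl ℝ
    convert h2 using 1
    ext t
    simp [not_or, and_comm]
  have hfr : ∃ᶠ t in 𝓝[≠] (1 : ℝ), t ∉ S ∧ t ≠ 1 ∧ 0 < t := by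
    rw [frequently_nhdsWithin_iff]
    have h1 : (1 : ℝ) ∈ closure (Sᶜ ∩ {t : ℝ | t ≠ 1}) := hd 1
    have h2 := mem_closure_iff_frequently.1 h1
    have h3 : ∀ᶠ t in 𝓝 (1 : ℝ), 0 < t := lt_mem_nhds one_pos
    refine (h2.and_eventually h3).mono ?_
    rintro t ⟨⟨h4, h5⟩, h6⟩
    exact ⟨⟨h4, h5, h6⟩, h5⟩
  by_contra hxy
  have h1 : ∀ᶠ t in 𝓝[≠] (1 : ℝ), f t ≠ g t := by
    have h2 := (hf.sub hg)
    have h3 : x - y ≠ 0 := sub_ne_zero.2 hxy
    have h4 := h2.eventually_ne h3
    exact h4.mono fun t ht => sub_ne_zero.1 ht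
  obtain ⟨t, ⟨h5, h6, h7⟩, h8⟩ := (hfr.and_eventually h1).exists
  exact h8 (h t h5 h6 h7)

end SD
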