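import Pool.Agent.Lib.MP_630b78_co.SD.Swap

/-!
# The three seeds as symmetric functions
-/

namespace SD

open MvPolynomial EllHall NG

theorem qd_one' : qd qq tt 1 = X 0 := by
  unfold qd hook
  simp only [Finset.sum_range_one, pow_zero, inv_one, one_smul, Nat.sub_self, zero_add, one_mul]
  have h0 : hh QT 0 = 1 := by rw [hh]
  have e0 : ee QT 0 = 1 := by rw [ee]
  have h1 := hh_succ (K := QT) 0
  simp only [zero_add, Finset.sum_range_one, Nat.sub_zero, h0, mul_one, Nat.cast_one, one_smul] at h1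
  simp [h1, e0]

theorem qd_two' : qd qq tt 2 = schur QT [1, 1] + (-(qq * tt))⁻¹ • schur QT [2] := by
  have h1 := schur_hook (K := QT) 0 1
  have h2 := schur_hook (K := QT) 1 0
  have e1 : (0 + 1) :: List.replicate 1 1 = [1, 1] := rfl
  have e2 : (1 + 1) :: List.replicate 0 1 = [2] := rfl
  rw [e1] at h1
  rw [e2] at h2
  rw [h1, h2]
  unfold qd
  rw [Finset.sum_range_succ, Finset.sum_range_one]
  simp

theorem sq_eq' : (X 0 * X 0 : MvPolynomial ℕ QT) = schur QT [2] + schur QT [1, 1] := by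
  rw [schur2, schur11]
  have h : (C (2⁻¹ : QT) * 2 : MvPolynomial ℕ QT) = 1 := by
    rw [show (2 : MvPolynomial ℕ QT) = C 2 from (map_ofNat _ 2).symm, ← map_mul]
    norm_num
  linear_combination (-(X 0 ^ 2 : MvPolynomial ℕ QT)) * h

/-- the symmetric function `∑ c_μ q_μ` -/
noncomputable def sf (c : Nat.Partition 2 → QT) : MvPolynomial ℕ QT := ∑ μ : Nat.Partition 2, c μ • (μ.parts.map (qd qq tt)).prod

theorem sf_seed (x y : QT) : sf (seed x y) = (y - x / (qq * tt)) • schur QT [2] + (x + y) • schur QT [1, 1] := by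
  have hp2 : (p2.parts.map (qd qq tt)).prod = qd qq tt 2 := by
    have h : p2.parts = {2} := rfl
    rw [h, Multiset.map_singleton, Multiset.prod_singleton]
  have hp11 : (p11.parts.map (qd qq tt)).prod = qd qq tt 1 * qd qq tt 1 := by
    have h : p11.parts = {1, 1} := rfl
    rw [h]
    simp
  unfold sf
  rw [sum2, seed_p2, seed_p11, hp2, hp11, qd_one', qd_two', sq_eq']
  rw [inv_neg, div_eq_mul_inv]
  simp only [smul_add, sub_smul, add_smul, neg_smul, smul_smul, smul_neg]
  abel

theorem sf_A : sf (gA 1) = schur QT [1, 1] + qq⁻¹ • schur QT [2] := by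
  have hn := one_add_ne
  have hn' : 1 + tt * qq ≠ 0 := by rw [mul_comm]; exact hn
  have hq := q_ne_zero
  have ht := t_ne_zero
  unfold gA
  rw [sf_seed]
  have e1 : (1 + tt) / (1 + qq * tt) - 1 * (tt * (qq - 1) / (1 + qq * tt)) / (qq * tt) = qq⁻¹ := by
    field_simp
    ring
  have e2 : 1 * (tt * (qq - 1) / (1 + qq * tt)) + (1 + tt) / (1 + qq * tt) = 1 := by
    field_simp
    ring
  rw [e1, e2, one_smul, add_comm]

theorem sf_B : sf (gB 1) = schur QT [1, 1] + tt⁻¹ • schur QT [2] := by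
  have hn := one_add_ne
  have hq := q_ne_zero
  have ht := t_ne_zero
  unfold gB
  rw [sf_seed]
  have e1 : (1 + qq) / (1 + qq * tt) - 1 * (qq * (tt - 1) / (1 + qq * tt)) / (qq * tt) = tt⁻¹ := by
    field_simp
    ring
  have e2 : 1 * (qq * (tt - 1) / (1 + qq * tt)) + (1 + qq) / (1 + qq * tt) = 1 := by
    field_simp
    ring
  rw [e1, e2, one_smul, add_comm]

theorem sf_C : sf (gC 1) = (-(qq * tt)⁻¹) • schur QT [2] := by
  have hn := one_add_ne
  have hq := q_ne_zero
  have ht := t_ne_zero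
  unfold gC
  rw [sf_seed]
  have e1 : -(1 / (1 + qq * tt)) - 1 * (1 / (1 + qq * tt)) / (qq * tt) = -(qq * tt)⁻¹ := by
    field_simp
    ring
  have e2 : 1 * (1 / (1 + qq * tt)) + -(1 / (1 + qq * tt)) = 0 := by
    ring
  rw [e1, e2, zero_smul, add_zero]

end SD
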