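import Mathlib

/-!
# Transport on a path: Hall's condition for intervals
-/

namespace SD

/-- the greedy choice -/
def gr (c d : ℕ → ℕ) : ℕ → ℕ
  | 0 => c 0 - d 0
  | i + 1 => c (i + 1) - (d (i + 1) - gr c d i)

private theorem gr_inv (c d : ℕ → ℕ)
    (h : ∀ i n, ∑ l ∈ Finset.range n, c (i + l) ≤ ∑ j ∈ Finset.range (n + 1), d (i + j)) (i : ℕ) :
    (gr c d i = 0 ∨ ∃ s n, s + n = i ∧ gr c d i + ∑ j ∈ Finset.range (n + 1), d (s + j) = ∑ l ∈ Finset.range (n + 1), c (s + l)) ∧
      gr c d i ≤ d (i + 1) := by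
  have key : ∀ i, (gr c d i = 0 ∨ ∃ s n, s + n = i ∧
      gr c d i + ∑ j ∈ Finset.range (n + 1), d (s + j) = ∑ l ∈ Finset.range (n + 1), c (s + l)) → gr c d i ≤ d (i + 1) := by
    intro i hi
    rcases hi with hi | ⟨s, n, hs, he⟩
    · omega
    · have h1 := h s (n + 1)
      rw [Finset.sum_range_succ (fun j => d (s + j)) (n + 1)] at h1
      have h2 : s + (n + 1) = i + 1 := by omega
      rw [h2] at h1
      omega
  have main : ∀ i, gr c d i = 0 ∨ ∃ s n, s + n = i ∧
      gr c d i + ∑ j ∈ Finset.range (n + 1), d (s + j) = ∑ l ∈ Finset.range (n + 1), c (s + l) := by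
    intro i
    induction i with
    | zero =>
      rcases Nat.lt_or_ge (d 0) (c 0) with h0 | h0
      · right
        refine ⟨0, 0, rfl, ?_⟩
        simp only [gr, zero_add, Finset.sum_range_one]
        omega
      · left
        simp only [gr]
        omega
    | succ i ih =>
      have hle := key i ih
      rcases Nat.lt_or_ge (d (i + 1) - gr c d i) (c (i + 1)) with h0 | h0
      · right
        have hg : gr c d (i + 1) = c (i + 1) - (d (i + 1) - gr c d i) := rfl
        rcases ih with ih | ⟨s, n, hs, he⟩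
        · refine ⟨i + 1, 0, rfl, ?_⟩
          simp only [zero_add, Finset.sum_range_one, Nat.add_zero]
          rw [hg]
          omega
        · refine ⟨s, n + 1, by omega, ?_⟩
          rw [Finset.sum_range_succ (fun j => d (s + j)) (n + 1), Finset.sum_range_succ (fun j => c (s + j)) (n + 1)]
          have h2 : s + (n + 1) = i + 1 := by omega
          rw [h2, hg]
          omega
      · left
        have hg : gr c d (i + 1) = c (i + 1) - (d (i + 1) - gr c d i) := rfl
        rw [hg]
        omega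
  exact ⟨main i, key i (main i)⟩

theorem path (c d : ℕ → ℕ) (h : ∀ i n, ∑ l ∈ Finset.range n, c (i + l) ≤ ∑ j ∈ Finset.range (n + 1), d (i + j)) :
    ∃ a : ℕ → ℕ, (∀ i, a i ≤ c i) ∧ c 0 - a 0 ≤ d 0 ∧ ∀ i, a i + (c (i + 1) - a (i + 1)) ≤ d (i + 1) := by
  refine ⟨gr c d, ?_, ?_, ?_⟩
  · intro i
    cases i with
    | zero => simp only [gr]; omega
    | succ i => simp only [gr]; omega
  · simp only [gr]
    omega
  · intro i
    have h1 := (gr_inv c d h i).2
    simp only [gr]
    omega

end SD
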