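import Mathlib
import Pool.Agent.Lib.MP_630b78_co.SD.Path

/-!
# Polynomials in two variables with coefficients in `ℕ`
-/

namespace SD

open MvPolynomial

/-- the coefficient of `x^i y^j`, zero for negative exponents -/
noncomputable def zc (P : MvPolynomial (Fin 2) ℕ) (i j : ℤ) : ℕ :=
  if 0 ≤ i ∧ 0 ≤ j then P.coeff (Finsupp.single 0 i.toNat + Finsupp.single 1 j.toNat) else 0

theorem zc_nat (P : MvPolynomial (Fin 2) ℕ) (i j : ℕ) : zc P i j = P.coeff (Finsupp.single 0 i + Finsupp.single 1 j) := by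
  unfold zc
  rw [if_pos ⟨by omega, by omega⟩, Int.toNat_natCast, Int.toNat_natCast]

theorem fin2 (m : Fin 2 →₀ ℕ) : Finsupp.single 0 (m 0) + Finsupp.single 1 (m 1) = m := by
  ext i
  fin_cases i <;> simp

theorem coeff_zc (P : MvPolynomial (Fin 2) ℕ) (m : Fin 2 →₀ ℕ) : P.coeff m = zc P (m 0) (m 1) := by
  rw [zc_nat, fin2]

theorem zc_add (P Q : MvPolynomial (Fin 2) ℕ) (i j : ℤ) : zc (P + Q) i j = zc P i j + zc Q i j := by
  unfold zc
  split_ifs
  · rw [coeff_add]
  · rfl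

theorem zc_X0 (P : MvPolynomial (Fin 2) ℕ) (i j : ℤ) : zc (X 0 * P) i j = zc P (i - 1) j := by
  unfold zc
  by_cases hi : 0 ≤ i
  · by_cases hj : 0 ≤ j
    · obtain ⟨i, rfl⟩ := Int.eq_ofNat_of_zero_le hi
      obtain ⟨j, rfl⟩ := Int.eq_ofNat_of_zero_le hj
      rw [if_pos ⟨hi, hj⟩, coeff_X_mul']
      simp only [Int.toNat_natCast]
      cases i with
      | zero =>
        rw [if_neg, if_neg]
        · intro h; have := h.1; simp at this
        · simp
      | succ i =>
        rw [if_pos, if_pos]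
        · congr 1
          ext k
          fin_cases k
          · simp
          · simp
        · refine ⟨by push_cast; omega, hj⟩
        · simp
    · rw [if_neg (fun h => hj h.2), if_neg (fun h => hj h.2)]
  · rw [if_neg (fun h => hi h.1), if_neg (fun h => hi (by have := h.1; omega))]

theorem zc_X1 (P : MvPolynomial (Fin 2) ℕ) (i j : ℤ) : zc (X 1 * P) i j = zc P i (j - 1) := by
  unfold zc
  by_cases hi : 0 ≤ i
  · by_cases hj : 0 ≤ j
    · obtain ⟨i, rfl⟩ := Int.eq_ofNat_of_zero_le hi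
      obtain ⟨j, rfl⟩ := Int.eq_ofNat_of_zero_le hj
      rw [if_pos ⟨hi, hj⟩, coeff_X_mul']
      simp only [Int.toNat_natCast]
      cases j with
      | zero =>
        rw [if_neg, if_neg]
        · intro h; have := h.2; simp at this
        · simp
      | succ j =>
        rw [if_pos, if_pos]
        · congr 1
          ext k
          fin_cases k
          · simp
          · simp
        · refine ⟨hi, by push_cast; omega⟩
        · simp
    · rw [if_neg (fun h => hj h.2), if_neg (fun h => hj (by have := h.2; omega))]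
  · rw [if_neg (fun h => hi h.1), if_neg (fun h => hi h.1)]

theorem exists_add (F G : MvPolynomial (Fin 2) ℕ) (h : ∀ m, F.coeff m ≤ G.coeff m) : ∃ C, G = F + C := by
  refine ⟨∑ m ∈ G.support, monomial m (G.coeff m - F.coeff m), ?_⟩
  ext m
  rw [coeff_add, coeff_sum]
  simp only [coeff_monomial]
  rw [Finset.sum_ite_eq' G.support m]
  split_ifs with hm
  · have := h m
    omega
  · have h1 : G.coeff m = 0 := notMem_support_iff.1 hm
    have := h m
    omega

/-- the coefficients are dominated on the intervals -/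
theorem hall_of_rec (P : ℕ → MvPolynomial (Fin 2) ℕ) (h : ∀ k, P (k + 2) + X 0 * X 1 * P k = (X 0 + X 1) * P (k + 1))
    (i j : ℤ) (n : ℕ) :
    ∑ l ∈ Finset.range n, (zc (P 0) (i + l) (j - 1 - l) : ℤ) ≤ ∑ l ∈ Finset.range (n + 1), (zc (P 1) (i + l) (j - l) : ℤ) := by
  have hr : ∀ (k : ℕ) (i j : ℤ), (zc (P (k + 2)) (i + 1) (j + 1) : ℤ) - zc (P (k + 1)) i (j + 1) =
      zc (P (k + 1)) (i + 1) j - zc (P k) i j := by
    intro k i j
    have h1 := congrArg (fun F => zc F (i + 1) (j + 1)) (h k)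
    simp only [zc_add, add_mul, mul_assoc, zc_X0, zc_X1, add_sub_cancel_right] at h1
    omega
  have hE : ∀ (k : ℕ) (i j : ℤ), (zc (P (k + 1)) (i + 1) j : ℤ) - zc (P k) i j = zc (P 1) (i + 1) (j - k) - zc (P 0) i (j - k) := by
    intro k
    induction k with
    | zero => intro i j; simp
    | succ k ih =>
      intro i j
      have h1 := hr k i (j - 1)
      rw [sub_add_cancel] at h1
      rw [h1, ih i (j - 1)]
      have h2 : j - 1 - (k : ℤ) = j - ((k + 1 : ℕ) : ℤ) := by push_cast; ring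
      rw [h2]
  have hS : ∀ (m : ℕ) (i j : ℤ), (zc (P m) (i + m) j : ℤ) = zc (P 0) i j +
      ∑ k ∈ Finset.range m, ((zc (P 1) (i + k + 1) (j - k) : ℤ) - zc (P 0) (i + k) (j - k)) := by
    intro m
    induction m with
    | zero => intro i j; simp
    | succ m ih =>
      intro i j
      rw [Finset.sum_range_succ, ← add_assoc, ← ih i j]
      have h1 := hE m (i + m) j
      have h2 : i + ((m + 1 : ℕ) : ℤ) = i + m + 1 := by push_cast; ring
      rw [h2, ← h1]
      ring
  have h1 := hS (n + 1) (i - 1) j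
  rw [Finset.sum_sub_distrib, Finset.sum_range_succ' (fun k : ℕ => (zc (P 0) (i - 1 + k) (j - k) : ℤ)) n] at h1
  have h2 : ∀ l : ℕ, i - 1 + (l : ℤ) + 1 = i + l := fun l => by ring
  have h3 : ∀ l : ℕ, i - 1 + ((l + 1 : ℕ) : ℤ) = i + l := fun l => by push_cast; ring
  have h4 : ∀ l : ℕ, j - ((l + 1 : ℕ) : ℤ) = j - 1 - l := fun l => by push_cast; ring
  simp only [h2, h3, h4, Nat.cast_zero, add_zero, sub_zero] at h1
  have h5 : (0 : ℤ) ≤ zc (P (n + 1)) (i - 1 + ((n + 1 : ℕ) : ℤ)) j := Int.natCast_nonneg _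
  simp only [h3] at h5 h1
  linarith

theorem split (P : ℕ → MvPolynomial (Fin 2) ℕ) (h : ∀ k, P (k + 2) + X 0 * X 1 * P k = (X 0 + X 1) * P (k + 1)) :
    ∃ A B C : MvPolynomial (Fin 2) ℕ, P 0 = A + B ∧ P 1 = X 0 * A + X 1 * B + C := by
  have h1 : ∀ n : ℕ, ∃ a : ℕ → ℕ, (∀ i, a i ≤ zc (P 0) i ((n : ℤ) - i)) ∧ zc (P 0) 0 n - a 0 ≤ zc (P 1) 0 ((n : ℤ) + 1) ∧
      ∀ i : ℕ, a i + (zc (P 0) ((i : ℤ) + 1) ((n : ℤ) - i - 1) - a (i + 1)) ≤ zc (P 1) ((i : ℤ) + 1) ((n : ℤ) - i) := by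
    intro n
    obtain ⟨a, h2, h3, h4⟩ := path (fun i => zc (P 0) i ((n : ℤ) - i)) (fun i => zc (P 1) i ((n : ℤ) + 1 - i)) (by
      intro i m
      have h5 := hall_of_rec P h i ((n : ℤ) + 1 - i) m
      have h6 : ∀ l : ℕ, (n : ℤ) + 1 - i - 1 - l = n - ((i + l : ℕ) : ℤ) := fun l => by push_cast; ring
      have h7 : ∀ l : ℕ, (n : ℤ) + 1 - i - l = n + 1 - ((i + l : ℕ) : ℤ) := fun l => by push_cast; ring
      have h8 : ∀ l : ℕ, (i : ℤ) + l = ((i + l : ℕ) : ℤ) := fun l => by push_cast; ring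
      simp only [h6, h7, h8] at h5
      exact_mod_cast h5)
    refine ⟨a, h2, ?_, ?_⟩
    · simpa using h3
    · intro i
      have h5 := h4 i
      have e1 : ((i + 1 : ℕ) : ℤ) = (i : ℤ) + 1 := by push_cast; ring
      have e2 : (n : ℤ) - ((i : ℤ) + 1) = n - i - 1 := by ring
      have e3 : (n : ℤ) + 1 - ((i : ℤ) + 1) = n - i := by ring
      simp only [e1, e2, e3] at h5
      exact h5
  choose a ha hb hc using h1
  have hA0 : ∀ m : Fin 2 →₀ ℕ, a (m 0 + m 1) (m 0) ≤ (P 0).coeff m := by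
    intro m
    have h2 := ha (m 0 + m 1) (m 0)
    rw [coeff_zc]
    have e : ((m 0 + m 1 : ℕ) : ℤ) - (m 0 : ℕ) = (m 1 : ℕ) := by push_cast; ring
    rw [e] at h2
    exact h2
  set A : MvPolynomial (Fin 2) ℕ := ∑ m ∈ (P 0).support, monomial m (a (m 0 + m 1) (m 0)) with hAdef
  have hAc : ∀ m : Fin 2 →₀ ℕ, A.coeff m = a (m 0 + m 1) (m 0) := by
    intro m
    rw [hAdef, coeff_sum]
    simp only [coeff_monomial]
    rw [Finset.sum_ite_eq' (P 0).support m]
    split_ifs with hm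
    · rfl
    · have h2 : (P 0).coeff m = 0 := notMem_support_iff.1 hm
      have := hA0 m
      omega
  obtain ⟨B, hB⟩ := exists_add A (P 0) (fun m => by rw [hAc]; exact hA0 m)
  have zA : ∀ i j : ℕ, zc A i j = a (i + j) i := by
    intro i j
    rw [zc_nat, hAc]
    simp
  have zB : ∀ i j : ℕ, zc B i j = zc (P 0) i j - a (i + j) i := by
    intro i j
    have h2 := congrArg (fun F => zc F i j) hB
    simp only [zc_add, zA] at h2
    omega
  obtain ⟨C, hC⟩ := exists_add (X 0 * A + X 1 * B) (P 1) (by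
    intro m
    rw [coeff_zc, coeff_zc, zc_add, zc_X0, zc_X1]
    rcases hm : m 0 with _ | s
    · have e1 : zc A (((0 : ℕ) : ℤ) - 1) (m 1) = 0 := by
        unfold zc; rw [if_neg]; intro h2; have := h2.1; simp at this
      rw [e1, zero_add]
      rcases hm1 : m 1 with _ | r
      · have e2 : zc B ((0 : ℕ) : ℤ) (((0 : ℕ) : ℤ) - 1) = 0 := by
          unfold zc; rw [if_neg]; intro h2; have := h2.2; simp at this
        rw [e2]; exact Nat.zero_le _
      · have e2 : ((r + 1 : ℕ) : ℤ) - 1 = (r : ℕ) := by push_cast; ring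
        rw [e2, zB 0 r]
        have h2 := hb r
        have e3 : ((r + 1 : ℕ) : ℤ) = (r : ℤ) + 1 := by push_cast; ring
        rw [e3]
        simpa using h2
    · have e0 : ((s + 1 : ℕ) : ℤ) - 1 = (s : ℕ) := by push_cast; ring
      rw [e0, zA s (m 1)]
      have h2 := hc (s + m 1) s
      have e1 : ((s + m 1 : ℕ) : ℤ) - (s : ℕ) = (m 1 : ℕ) := by push_cast; ring
      have e2 : ((s : ℤ) + 1) = ((s + 1 : ℕ) : ℤ) := by push_cast; ring
      rw [e1, e2] at h2
      refine le_trans (Nat.add_le_add_left ?_ _) h2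
      rcases hm1 : m 1 with _ | r
      · have e3 : zc B ((s + 1 : ℕ) : ℤ) (((0 : ℕ) : ℤ) - 1) = 0 := by
          unfold zc; rw [if_neg]; intro h3; have := h3.2; simp at this
        rw [e3]; exact Nat.zero_le _
      · have e3 : ((r + 1 : ℕ) : ℤ) - 1 = (r : ℕ) := by push_cast; ring
        rw [e3, zB (s + 1) r]
        have e4 : s + 1 + r = s + (r + 1) := by ring
        rw [e4])
  exact ⟨A, B, C, hB, hC⟩

end SD
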