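import Pool.Agent.Lib.MP_630b78_co.SD.Val
import Pool.Agent.Lib.MP_630b78_co.SD.Poly

/-!
# The seeds of degree two
-/

namespace SD

open MvPolynomial EllHall

theorem NN_mul {x y : QT} (hx : IsNN qq tt x) (hy : IsNN qq tt y) : IsNN qq tt (x * y) := by
  obtain ⟨P, rfl⟩ := hx
  obtain ⟨Q, rfl⟩ := hy
  exact ⟨P * Q, by rw [eval₂_mul]⟩

theorem NN_q : IsNN qq tt qq := ⟨X 0, by rw [eval₂_X]; rfl⟩

theorem NN_t : IsNN qq tt tt := ⟨X 1, by rw [eval₂_X]; rfl⟩

theorem NN_one : IsNN qq tt (1 : QT) := ⟨1, by rw [eval₂_one]⟩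

theorem NN_pow {x : QT} (hx : IsNN qq tt x) (n : ℕ) : IsNN qq tt (x ^ n) := by
  induction n with
  | zero => rw [pow_zero]; exact NN_one
  | succ n ih => rw [pow_succ]; exact NN_mul ih hx

theorem eval_inj {P Q : MvPolynomial (Fin 2) ℕ} (h : P.eval₂ (Nat.castRingHom QT) ![qq, tt] = Q.eval₂ (Nat.castRingHom QT) ![qq, tt]) :
    P = Q := by
  rw [nn_eval₂_map, nn_eval₂_map] at h
  have h1 := IsFractionRing.injective (MvPolynomial (Fin 2) ℚ) QT h
  exact map_injective _ Nat.cast_injective h1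

theorem one_add_ne : 1 + qq * tt ≠ 0 := by
  have h := (eval_inj (P := 1 + X 0 * X 1) (Q := 0)).mt ?_
  · intro h1
    apply h
    rw [eval₂_add, eval₂_mul, eval₂_X, eval₂_X, eval₂_one, eval₂_zero]
    exact h1
  · intro h1
    have h2 := congrArg (fun P => coeff (0 : Fin 2 →₀ ℕ) P) h1
    simp at h2

/-- nonnegativity of all members of the sequence gives a decomposition -/
theorem split_NN (x : ℕ → QT) (hx : ∀ m, IsNN qq tt (x m)) (hr : ∀ m, x (m + 2) + qq * tt * x m = (qq + tt) * x (m + 1)) :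
    ∃ A B C : QT, IsNN qq tt A ∧ IsNN qq tt B ∧ IsNN qq tt C ∧ x 0 = A + B ∧ x 1 = qq * A + tt * B + C := by
  choose P hP using hx
  obtain ⟨A, B, C, h1, h2⟩ := split P (fun k => by
    apply eval_inj
    rw [eval₂_add, eval₂_mul, eval₂_mul, eval₂_X, eval₂_X, eval₂_mul, eval₂_add, eval₂_X, eval₂_X, ← hP, ← hP, ← hP]
    exact hr k)
  refine ⟨_, _, _, ⟨A, rfl⟩, ⟨B, rfl⟩, ⟨C, rfl⟩, ?_, ?_⟩
  · rw [hP, h1, eval₂_add]
  · rw [hP, h2, eval₂_add, eval₂_add, eval₂_mul, eval₂_mul, eval₂_X, eval₂_X]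
    rfl

theorem xx_zero_one {K : Type} [Field K] {q t : K} (hM : (1 - q) * (1 - t) ≠ 0) (h1 : q ≠ t) (c2 c11 : K) :
    xx q t c2 c11 0 = c2 + c11 ∧ xx q t c2 c11 1 = c2 * (1 + q + t) + c11 * (q + t - q * t) := by
  have hM1 : (1 - q) ≠ 0 := left_ne_zero_of_mul hM
  have hM2 : (1 - t) ≠ 0 := right_ne_zero_of_mul hM
  have hqt : q - t ≠ 0 := sub_ne_zero.2 h1
  have e0 : xx q t c2 c11 0 = (c2 * (q - t) + c11 * (q - t)) / (q - t) := by
    unfold xx
    rw [← neg_sub q t]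
    field_simp
    ring
  refine ⟨?_, ?_⟩
  · rw [e0]
    field_simp
  · unfold xx
    rw [← neg_sub q t]
    field_simp
    ring

theorem coords {K : Type} [Field K] {q t : K} (hM : (1 - q) * (1 - t) ≠ 0) (h1 : q ≠ t) (h : 1 + q * t ≠ 0) (c2 c11 : K) :
    c2 = (xx q t c2 c11 1 - (q + t - q * t) * xx q t c2 c11 0) / (1 + q * t) ∧
      c11 = ((1 + q + t) * xx q t c2 c11 0 - xx q t c2 c11 1) / (1 + q * t) := by
  obtain ⟨e0, e1⟩ := xx_zero_one hM h1 c2 c11
  rw [e0, e1]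
  constructor
  · field_simp
    ring
  · field_simp
    ring

/-- a two-term recursion -/
theorem xx_unique {K : Type} [Field K] {q t c2 c11 : K} (y : ℕ → K) (h0 : xx q t c2 c11 0 = y 0) (h1 : xx q t c2 c11 1 = y 1)
    (hy : ∀ m, y (m + 2) + q * t * y m = (q + t) * y (m + 1)) (m : ℕ) : xx q t c2 c11 m = y m := by
  have h : ∀ m, xx q t c2 c11 m = y m ∧ xx q t c2 c11 (m + 1) = y (m + 1) := by
    intro m
    induction m with
    | zero => exact ⟨h0, h1⟩
    | succ m ih =>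
      refine ⟨ih.2, ?_⟩
      have h2 : xx q t c2 c11 (m + 2) + q * t * xx q t c2 c11 m = (q + t) * xx q t c2 c11 (m + 1) := by
        unfold xx
        ring
      have h3 := hy m
      rw [ih.1, ih.2] at h2
      exact add_right_cancel (h2.trans h3.symm)
  exact (h m).1

theorem seed_p2 (x y : QT) : seed x y p2 = x := by
  unfold seed
  rw [if_pos (show p2.parts = {2} from rfl)]

theorem seed_p11 (x y : QT) : seed x y p11 = y := by
  unfold seed
  rw [if_neg]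
  intro h
  have h1 := congrArg Multiset.card h
  simp [p11] at h1

/-- the sum `∑_(i < m) q^i t^(m-1-i)` -/
noncomputable def hsum (m : ℕ) : QT := ∑ i ∈ Finset.range m, qq ^ i * tt ^ (m - 1 - i)

theorem hsum_succ (m : ℕ) : hsum (m + 1) = qq ^ m + tt * hsum m := by
  unfold hsum
  rw [Finset.sum_range_succ, Finset.mul_sum, add_comm]
  congr 1
  · rw [show m + 1 - 1 - m = 0 by omega, pow_zero, mul_one]
  · refine Finset.sum_congr rfl fun i hi => ?_
    have hi := Finset.mem_range.1 hi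
    rw [show m + 1 - 1 - i = (m - 1 - i) + 1 by omega, pow_succ]
    ring

theorem hsum_rec (m : ℕ) : hsum (m + 2) + qq * tt * hsum m = (qq + tt) * hsum (m + 1) := by
  rw [hsum_succ (m + 1), hsum_succ m]
  ring

theorem NN_hsum (m : ℕ) : IsNN qq tt (hsum m) :=
  IsNN.sum _ _ fun i _ => NN_mul (NN_pow NN_q i) (NN_pow NN_t _)

theorem xA (m : ℕ) : xx qq tt (gA 1 p2) (gA 1 p11) m = qq ^ m := by
  obtain ⟨h0, h1⟩ := xx_zero_one hM_QT q_ne_t (gA 1 p2) (gA 1 p11)
  have hn := one_add_ne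
  have hn' : 1 + tt * qq ≠ 0 := by rw [mul_comm]; exact hn
  refine xx_unique (fun m => qq ^ m) ?_ ?_ (fun m => by ring) m
  · rw [h0, gA, seed_p2, seed_p11]
    field_simp
    ring
  · rw [h1, gA, seed_p2, seed_p11]
    field_simp
    ring

theorem xB (m : ℕ) : xx qq tt (gB 1 p2) (gB 1 p11) m = tt ^ m := by
  obtain ⟨h0, h1⟩ := xx_zero_one hM_QT q_ne_t (gB 1 p2) (gB 1 p11)
  have hn := one_add_ne
  refine xx_unique (fun m => tt ^ m) ?_ ?_ (fun m => by ring) m
  · rw [h0, gB, seed_p2, seed_p11]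
    field_simp
    ring
  · rw [h1, gB, seed_p2, seed_p11]
    field_simp
    ring

theorem xC (m : ℕ) : xx qq tt (gC 1 p2) (gC 1 p11) m = hsum m := by
  obtain ⟨h0, h1⟩ := xx_zero_one hM_QT q_ne_t (gC 1 p2) (gC 1 p11)
  have hn := one_add_ne
  refine xx_unique (fun m => hsum m) ?_ ?_ (fun m => hsum_rec m) m
  · rw [h0, gC, seed_p2, seed_p11]
    simp [hsum]
  · rw [h1, gC, seed_p2, seed_p11]
    simp only [hsum, Finset.sum_range_one, pow_zero]
    field_simp
    ring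

/-- the criterion on the level of the numbers -/
theorem crit (c : Nat.Partition 2 → QT) :
    (∀ m, IsNN qq tt (xx qq tt (c p2) (c p11) m)) ↔
      ∃ A B C : QT, IsNN qq tt A ∧ IsNN qq tt B ∧ IsNN qq tt C ∧ c = A • gA 1 + B • gB 1 + C • gC 1 := by
  constructor
  · intro h
    obtain ⟨A, B, C, hA, hB, hC, h0, h1⟩ := split_NN (xx qq tt (c p2) (c p11)) h (fun m => xx_rec _ _ m)
    refine ⟨A, B, C, hA, hB, hC, ?_⟩
    obtain ⟨e1, e2⟩ := coords hM_QT q_ne_t one_add_ne (c p2) (c p11)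
    rw [h0, h1] at e1 e2
    have hn := one_add_ne
    funext μ
    rcases cases2 μ with rfl | rfl
    · rw [e1]
      simp only [Pi.add_apply, Pi.smul_apply, gA, gB, gC, seed_p2, smul_eq_mul]
      field_simp
      ring
    · rw [e2]
      simp only [Pi.add_apply, Pi.smul_apply, gA, gB, gC, seed_p11, smul_eq_mul]
      field_simp
      ring
  · rintro ⟨A, B, C, hA, hB, hC, rfl⟩ m
    have h : xx qq tt ((A • gA 1 + B • gB 1 + C • gC 1) p2) ((A • gA 1 + B • gB 1 + C • gC 1) p11) m =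
        A * xx qq tt (gA 1 p2) (gA 1 p11) m + B * xx qq tt (gB 1 p2) (gB 1 p11) m + C * xx qq tt (gC 1 p2) (gC 1 p11) m := by
      simp only [Pi.add_apply, Pi.smul_apply, smul_eq_mul]
      unfold xx
      ring
    rw [h, xA, xB, xC]
    exact ((NN_mul hA (NN_pow NN_q m)).add (NN_mul hB (NN_pow NN_t m))).add (NN_mul hC (NN_hsum m))

/-- the signs -/
noncomputable def tw (s : QT) (c : Nat.Partition 2 → QT) : Nat.Partition 2 → QT := fun μ => s ^ (Multiset.card μ.parts) * c μ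

/-- the two conventions -/
def Sg (σ : ℕ → QT) (s : QT) : Prop := (σ = (fun _ => 1) ∧ s = -1) ∨ (σ = (fun n => (-1) ^ (n + 1)) ∧ s = 1)

theorem Sg.sq {σ : ℕ → QT} {s : QT} (h : Sg σ s) : s * s = 1 := by
  rcases h with ⟨_, rfl⟩ | ⟨_, rfl⟩ <;> ring

theorem ff_tw {σ : ℕ → QT} {s : QT} (h : Sg σ s) (Q : ℕ → ℕ → Module.End QT (MvPolynomial ℕ QT)) (c : Nat.Partition 2 → QT) (a b : ℕ) :
    ff Q σ c a b = ff (fun m n => (-1 : QT) ^ (n + 1) • Q m n) (fun _ => (1 : QT)) (tw s c) a b := by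
  rcases h with ⟨rfl, rfl⟩ | ⟨rfl, rfl⟩
  · rw [ff_literal, show (-1 : QT) ^ (b * 2) = 1 by rw [mul_comm, pow_mul]; norm_num, one_smul]
    rfl
  · rw [ff_corrected]
    congr 1
    funext μ
    unfold tw
    rw [one_pow, one_mul]

theorem tw_p2 (s : QT) (c : Nat.Partition 2 → QT) : tw s c p2 = s * c p2 := by
  unfold tw
  simp [p2]

theorem tw_p11 {s : QT} (hs : s * s = 1) (c : Nat.Partition 2 → QT) : tw s c p11 = c p11 := by
  unfold tw
  have h : Multiset.card p11.parts = 2 := by simp [p11]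
  rw [h, pow_two, hs, one_mul]

theorem tw_A {s : QT} (hs : s * s = 1) : tw s (gA s) = gA 1 := by
  funext μ
  rcases cases2 μ with rfl | rfl
  · rw [tw_p2, gA, gA, seed_p2, seed_p2, ← mul_assoc, hs]
  · rw [tw_p11 hs, gA, gA, seed_p11, seed_p11]

theorem tw_B {s : QT} (hs : s * s = 1) : tw s (gB s) = gB 1 := by
  funext μ
  rcases cases2 μ with rfl | rfl
  · rw [tw_p2, gB, gB, seed_p2, seed_p2, ← mul_assoc, hs]
  · rw [tw_p11 hs, gB, gB, seed_p11, seed_p11]

theorem tw_C {s : QT} (hs : s * s = 1) : tw s (gC s) = gC 1 := by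
  funext μ
  rcases cases2 μ with rfl | rfl
  · rw [tw_p2, gC, gC, seed_p2, seed_p2, ← mul_assoc, hs]
  · rw [tw_p11 hs, gC, gC, seed_p11, seed_p11]

theorem tw_lin (s A B C : QT) (f g h : Nat.Partition 2 → QT) : tw s (A • f + B • g + C • h) = A • tw s f + B • tw s g + C • tw s h := by
  funext μ
  simp only [tw, Pi.add_apply, Pi.smul_apply, smul_eq_mul]
  ring

theorem tw_tw {s : QT} (hs : s * s = 1) (c : Nat.Partition 2 → QT) : tw s (tw s c) = c := by
  funext μ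
  unfold tw
  rw [← mul_assoc, ← mul_pow, hs, one_pow, one_mul]

/-- the value of `f^(k,1)` -/
theorem value {σ : ℕ → QT} {s : QT} (h : Sg σ s) {Q : ℕ → ℕ → Module.End QT (MvPolynomial ℕ QT)} (hQ : IsHall qq tt Q)
    (c : Nat.Partition 2 → QT) (m : ℕ) :
    ff Q σ c (m + 1) 1 = xx qq tt (tw s c p2) (tw s c p11) m • schur QT [2] + xx qq tt (tw s c p2) (tw s c p11) (m + 1) • schur QT [1, 1] := by
  rw [ff_tw h]
  exact ff_val hM_QT q_ne_t (isT_of_isHall hQ) _ m

/-- the classification -/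
theorem classify {σ : ℕ → QT} {s : QT} (h : Sg σ s) {Q : ℕ → ℕ → Module.End QT (MvPolynomial ℕ QT)} (hQ : IsHall qq tt Q)
    (c : Nat.Partition 2 → QT) :
    KPos Q σ c ↔
      ∃ A B C : QT, IsNN qq tt A ∧ IsNN qq tt B ∧ IsNN qq tt C ∧ c = A • gA s + B • gB s + C • gC s := by
  have hs := h.sq
  have h1 : KPos Q σ c ↔
      ∀ m, IsNN qq tt (xx qq tt (tw s c p2) (tw s c p11) m) := by
    constructor
    · intro h2 m
      have h3 := h2 (m + 1) (by omega) p2
      rw [value h hQ] at h3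
      have h4 : p2.parts = {2} := rfl
      rw [h4, sc_two] at h3
      exact h3
    · intro h2 k hk μ
      obtain ⟨m, rfl⟩ : ∃ m, k = m + 1 := ⟨k - 1, by omega⟩
      rw [value h hQ]
      have h3 : μ = p2 ∨ μ = p11 := cases2 μ
      rcases h3 with rfl | rfl
      · have h4 : p2.parts = {2} := rfl
        rw [h4, sc_two]
        exact h2 m
      · have h4 : p11.parts = {1, 1} := rfl
        rw [h4, sc_11]
        exact h2 (m + 1)
  rw [h1, crit (tw s c)]
  constructor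
  · rintro ⟨A, B, C, hA, hB, hC, he⟩
    refine ⟨A, B, C, hA, hB, hC, ?_⟩
    have h2 := congrArg (tw s) he
    rw [tw_tw hs, tw_lin, ← tw_A hs, ← tw_B hs, ← tw_C hs, tw_tw hs, tw_tw hs, tw_tw hs] at h2
    exact h2
  · rintro ⟨A, B, C, hA, hB, hC, he⟩
    refine ⟨A, B, C, hA, hB, hC, ?_⟩
    rw [he, tw_lin, tw_A hs, tw_B hs, tw_C hs]

theorem ff_lin (Q : ℕ → ℕ → Module.End QT (MvPolynomial ℕ QT)) (σ : ℕ → QT) (A B C : QT) (f g h : Nat.Partition 2 → QT) (a b : ℕ) :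
    ff Q σ (A • f + B • g + C • h) a b = A • ff Q σ f a b + B • ff Q σ g a b + C • ff Q σ h a b := by
  unfold ff
  simp only [Finset.smul_sum, smul_smul, Pi.add_apply, Pi.smul_apply, smul_eq_mul, add_smul, Finset.sum_add_distrib]

theorem bar_lin (A B C : QT) (f g h : MvPolynomial ℕ QT) (n : ℕ) (ρ : Multiset ℕ) :
    barCoeff (A • f + B • g + C • h) n ρ = A * barCoeff f n ρ + B * barCoeff g n ρ + C * barCoeff h n ρ := by
  have h1 : ∀ x y : MvPolynomial ℕ QT, barCoeff (x + y) n ρ = barCoeff x n ρ + barCoeff y n ρ := by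
    intro x y
    unfold barCoeff sc
    rw [← Finset.sum_add_distrib]
    refine Finset.sum_congr rfl fun μ _ => ?_
    rw [hall_add_left]
    split_ifs
    · rfl
    · rw [add_zero]
  rw [h1, h1, barCoeff_smul, barCoeff_smul, barCoeff_smul]

/-- the comparison for the three seeds gives it for all seeds of degree two -/
theorem reduce {σ : ℕ → QT} {s : QT} (h : Sg σ s) {Q : ℕ → ℕ → Module.End QT (MvPolynomial ℕ QT)} (hQ : IsHall qq tt Q)
    (c : Nat.Partition 2 → QT) (hc : KPos Q σ c) (a b : ℕ)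
    (h3 : ∀ g : Nat.Partition 2 → QT, g = gA s ∨ g = gB s ∨ g = gC s → ∀ ρ : Multiset ℕ, IsNN qq tt (Dl Q σ g a b ρ))
    (ρ : Multiset ℕ) : IsNN qq tt (Dl Q σ c a b ρ) := by
  obtain ⟨A, B, C, hA, hB, hC, rfl⟩ := (classify h hQ c).1 hc
  unfold Dl at h3 ⊢
  rw [ff_lin, ff_lin, bar_lin, bar_lin]
  have e : ∀ x1 x2 x3 y1 y2 y3 : QT, A * x1 + B * x2 + C * x3 - (A * y1 + B * y2 + C * y3) =
      A * (x1 - y1) + B * (x2 - y2) + C * (x3 - y3) := fun _ _ _ _ _ _ => by ring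
  rw [e]
  exact ((NN_mul hA (h3 _ (Or.inl rfl) ρ)).add (NN_mul hB (h3 _ (Or.inr (Or.inl rfl)) ρ))).add
    (NN_mul hC (h3 _ (Or.inr (Or.inr rfl)) ρ))

end SD
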