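import Pool.Agent.Lib.MP_630b78_co.SD.Good
import Pool.Agent.Lib.MP_630b78_co.NG.Fin

/-!
# Two seeds over `ℝ` for `t → 1`
-/

namespace SD

open MvPolynomial EllHall NG Filter Topology

/-- the coefficients `x`, `y` of a seed of degree two -/
def sR (x y : ℝ) (μ : Nat.Partition 2) : ℝ := if μ.parts = {2} then x else y

theorem sR_p2 (x y : ℝ) : sR x y p2 = x := by
  unfold sR
  rw [if_pos (show p2.parts = {2} from rfl)]

theorem sR_p11 (x y : ℝ) : sR x y p11 = y := by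
  unfold sR
  rw [if_neg]
  intro h
  have h1 := congrArg Multiset.card h
  simp [p11] at h1

/-- the second seed -/
noncomputable def bR (q t : ℝ) : Nat.Partition 2 → ℝ := sR (q * (t - 1) / (1 + q * t)) ((1 + q) / (1 + q * t))

/-- `q` times the third seed -/
noncomputable def cR (q t : ℝ) : Nat.Partition 2 → ℝ := sR (q / (1 + q * t)) (-(q / (1 + q * t)))

/-- the difference of the coefficients of `s_ρ` -/
noncomputable def dl (a b : ℕ) (ρ : Multiset ℕ) (Q : ℕ → ℕ → Module.End ℝ (MvPolynomial ℕ ℝ)) (s : Nat.Partition 2 → ℝ) : ℝ :=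
  barCoeff (ff Q (fun n => (-1 : ℝ) ^ (n + 1)) s a b) (b * 2) ρ - barCoeff (ff Q (fun n => (-1 : ℝ) ^ (n + 1)) s b a) (a * 2) ρ

theorem dl_lin (a b : ℕ) (ρ : Multiset ℕ) (Q : ℕ → ℕ → Module.End ℝ (MvPolynomial ℕ ℝ)) (x y : ℝ) (f g : Nat.Partition 2 → ℝ) :
    dl a b ρ Q (x • f + y • g) = x * dl a b ρ Q f + y * dl a b ρ Q g := by
  have h1 : ∀ (n : ℕ) (x y : MvPolynomial ℕ ℝ), barCoeff (x + y) n ρ = barCoeff x n ρ + barCoeff y n ρ := by
    intro n x y
    unfold barCoeff sc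
    rw [← Finset.sum_add_distrib]
    refine Finset.sum_congr rfl fun μ _ => ?_
    rw [hall_add_left]
    split_ifs
    · rfl
    · rw [add_zero]
  have h2 : ∀ (a b : ℕ), ff Q (fun n => (-1 : ℝ) ^ (n + 1)) (x • f + y • g) a b =
      x • ff Q (fun n => (-1 : ℝ) ^ (n + 1)) f a b + y • ff Q (fun n => (-1 : ℝ) ^ (n + 1)) g a b := by
    intro a b
    unfold ff
    simp only [Finset.smul_sum, smul_smul, Pi.add_apply, Pi.smul_apply, smul_eq_mul, add_smul, Finset.sum_add_distrib]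
  unfold dl
  rw [h2, h2, h1, h1, barCoeff_smul, barCoeff_smul, barCoeff_smul, barCoeff_smul]
  ring

theorem qd_one (q : ℝ) : qd q 1 1 = X 0 := by
  unfold qd hook
  simp only [Finset.sum_range_one, pow_zero, inv_one, one_smul, Nat.sub_self, zero_add, one_mul]
  have h0 : hh ℝ 0 = 1 := by rw [hh]
  have e0 : ee ℝ 0 = 1 := by rw [ee]
  have h1 := hh_succ (K := ℝ) 0
  simp only [zero_add, Finset.sum_range_one, Nat.sub_zero, h0, mul_one, Nat.cast_one, one_smul] at h1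
  simp [h1, e0]

theorem qd_two (q : ℝ) : qd q 1 2 = schur ℝ [1, 1] + (-q)⁻¹ • schur ℝ [2] := by
  have h1 := schur_hook (K := ℝ) 0 1
  have h2 := schur_hook (K := ℝ) 1 0
  have e1 : (0 + 1) :: List.replicate 1 1 = [1, 1] := rfl
  have e2 : (1 + 1) :: List.replicate 0 1 = [2] := rfl
  rw [e1] at h1
  rw [e2] at h2
  rw [h1, h2]
  unfold qd
  rw [Finset.sum_range_succ, Finset.sum_range_one]
  simp

theorem hh_two' : hh ℝ 2 = schur ℝ [2] := by
  have h := schur_hook (K := ℝ) 1 0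
  have e2 : (1 + 1) :: List.replicate 0 1 = [2] := rfl
  rw [e2] at h
  have e0 : ee ℝ 0 = 1 := by rw [ee]
  rw [h]
  unfold hook
  simp [e0]

theorem hh_one' : hh ℝ 1 = X 0 := by
  have h0 : hh ℝ 0 = 1 := by rw [hh]
  have h1 := hh_succ (K := ℝ) 0
  simp only [zero_add, Finset.sum_range_one, Nat.sub_zero, h0, mul_one, Nat.cast_one, one_smul] at h1
  exact h1

theorem sq_eq : (X 0 * X 0 : MvPolynomial ℕ ℝ) = schur ℝ [2] + schur ℝ [1, 1] := by
  rw [schur2, schur11]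
  have h : (C (2⁻¹ : ℝ) * 2 : MvPolynomial ℕ ℝ) = 1 := by
    rw [show (2 : MvPolynomial ℕ ℝ) = C 2 from (map_ofNat _ 2).symm, ← map_mul]
    norm_num
  linear_combination (-(X 0 ^ 2 : MvPolynomial ℕ ℝ)) * h

theorem prod_p2 (f : ℕ → MvPolynomial ℕ ℝ) : (p2.parts.map f).prod = f 2 := by
  have h : p2.parts = {2} := rfl
  rw [h, Multiset.map_singleton, Multiset.prod_singleton]

theorem prod_p11 (f : ℕ → MvPolynomial ℕ ℝ) : (p11.parts.map f).prod = f 1 * f 1 := by
  have h : p11.parts = {1, 1} := rfl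
  rw [h]
  simp

/-- the limit for the second seed -/
theorem lim_b (a b : ℕ) (ha : 1 ≤ a) (hab : a ≤ b) (hc : Nat.Coprime a b) (ρ : Multiset ℕ) :
    ∃ P : Polynomial ℕ, ∀ q : ℝ, 0 < q → q ≠ 1 → ∀ Q : ℝ → ℕ → ℕ → Module.End ℝ (MvPolynomial ℕ ℝ),
      (∀ t : ℝ, t ≠ 1 → IsHall q t (Q t)) →
      Tendsto (fun t => dl a b ρ (Q t) (bR q t)) (𝓝[≠] (1 : ℝ)) (𝓝 ((P.map (Nat.castRingHom ℝ)).eval q)) := by
  obtain ⟨P, hP⟩ := main_t a b 2 ha hab hc (fun μ => if μ.parts = {2} then 0 else 1) ρ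
  refine ⟨P, fun q h0 h1 Q hQ => hP q h0.ne' h1 Q hQ (fun t => bR q t) (sR 0 1) ?_ ?_⟩
  · intro μ
    have hn : 1 + q * 1 ≠ 0 := by rw [mul_one]; positivity
    have hd : Tendsto (fun t : ℝ => 1 + q * t) (𝓝[≠] (1 : ℝ)) (𝓝 (1 + q * 1)) :=
      ((continuous_const.add (continuous_const.mul continuous_id)).tendsto 1).mono_left nhdsWithin_le_nhds
    rcases cases2 μ with rfl | rfl
    · simp only [bR, sR_p2]
      have h2 : Tendsto (fun t : ℝ => q * (t - 1)) (𝓝[≠] (1 : ℝ)) (𝓝 (q * (1 - 1))) :=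
        ((continuous_const.mul (continuous_id.sub continuous_const)).tendsto 1).mono_left nhdsWithin_le_nhds
      have h3 := h2.div hd hn
      rw [sub_self, mul_zero, zero_div] at h3
      exact h3
    · simp only [bR, sR_p11]
      have h2 : Tendsto (fun _ : ℝ => 1 + q) (𝓝[≠] (1 : ℝ)) (𝓝 (1 + q)) := tendsto_const_nhds
      have h3 := h2.div hd hn
      rw [mul_one, div_self (by positivity)] at h3
      exact h3
  · rw [sum2, sum2, sR_p2, sR_p11, prod_p2, prod_p11, prod_p2, prod_p11, qd_one, hh_one']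
    have e1 : p2.parts = {2} := rfl
    have e2 : ¬ p11.parts = {2} := by
      intro h
      have h1 := congrArg Multiset.card h
      simp [p11] at h1
    have e3 : Multiset.card p11.parts = 2 := by simp [p11]
    rw [if_pos e1, if_neg e2, e3]
    simp

/-- the limit for the third seed -/
theorem lim_c (a b : ℕ) (ha : 1 ≤ a) (hab : a ≤ b) (hc : Nat.Coprime a b) (ρ : Multiset ℕ) :
    ∃ P : Polynomial ℕ, ∀ q : ℝ, 0 < q → q ≠ 1 → ∀ Q : ℝ → ℕ → ℕ → Module.End ℝ (MvPolynomial ℕ ℝ),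
      (∀ t : ℝ, t ≠ 1 → IsHall q t (Q t)) →
      Tendsto (fun t => dl a b ρ (Q t) (cR q t)) (𝓝[≠] (1 : ℝ)) (𝓝 ((P.map (Nat.castRingHom ℝ)).eval q)) := by
  obtain ⟨P, hP⟩ := main_t a b 2 ha hab hc (fun μ => if μ.parts = {2} then 1 else 0) ρ
  refine ⟨P, fun q h0 h1 Q hQ => hP q h0.ne' h1 Q hQ (fun t => cR q t) (sR (q / (1 + q)) (-(q / (1 + q)))) ?_ ?_⟩
  · intro μ
    have hn : 1 + q * 1 ≠ 0 := by rw [mul_one]; positivity
    have hd : Tendsto (fun t : ℝ => 1 + q * t) (𝓝[≠] (1 : ℝ)) (𝓝 (1 + q * 1)) :=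
      ((continuous_const.add (continuous_const.mul continuous_id)).tendsto 1).mono_left nhdsWithin_le_nhds
    have h2 : Tendsto (fun _ : ℝ => q) (𝓝[≠] (1 : ℝ)) (𝓝 q) := tendsto_const_nhds
    have h3 := h2.div hd hn
    rw [mul_one] at h3
    rcases cases2 μ with rfl | rfl
    · simp only [cR, sR_p2]
      exact h3
    · simp only [cR, sR_p11]
      exact h3.neg
  · rw [sum2, sum2, sR_p2, sR_p11, prod_p2, prod_p11, prod_p2, prod_p11, qd_one, qd_two, hh_two', sq_eq]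
    have e1 : p2.parts = {2} := rfl
    have e2 : ¬ p11.parts = {2} := by
      intro h
      have h1 := congrArg Multiset.card h
      simp [p11] at h1
    have e3 : Multiset.card p2.parts = 1 := by simp [p2]
    rw [if_pos e1, if_neg e2, e3]
    have hq : q ≠ 0 := h0.ne'
    have hq1 : 1 + q ≠ 0 := by positivity
    have e4 : ∀ S S' : MvPolynomial ℕ ℝ, (q / (1 + q)) • (S' + (-q)⁻¹ • S) + (-(q / (1 + q))) • (S + S') = (-1 : ℝ) • S := by
      intro S S'
      have h5 : (q / (1 + q)) * (-q)⁻¹ + -(q / (1 + q)) = -1 := by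
        field_simp
        ring
      calc (q / (1 + q)) • (S' + (-q)⁻¹ • S) + (-(q / (1 + q))) • (S + S')
          = ((q / (1 + q)) * (-q)⁻¹ + -(q / (1 + q))) • S + (q / (1 + q) + -(q / (1 + q))) • S' := by
            simp only [smul_add, smul_smul, add_smul]
            abel
        _ = (-1 : ℝ) • S := by rw [h5, add_neg_cancel, zero_smul, add_zero]
    rw [e4]
    simp

end SD
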