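import Pool.Agent.Lib.MP_630b78_co.SD.OneA

/-!
# The comparison at `q = t = 1`
-/

namespace SD

open MvPolynomial EllHall NG Filter Topology

theorem emb_seed {q0 t0 : ℝ} (h : Good q0 t0) (x y : QT) (μ : Nat.Partition 2) : emb h (seed x y μ) = sR (emb h x) (emb h y) μ := by
  unfold seed sR
  split_ifs <;> rfl

theorem emb_A {q0 t0 : ℝ} (h : Good q0 t0) (hq : 0 < q0) (ht : 0 < t0) (μ : Nat.Partition 2) :
    emb h (gA 1 μ) = bR q0 t0 μ + (q0 - t0) / q0 * cR q0 t0 μ := by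
  have hn : 1 + q0 * t0 ≠ 0 := by positivity
  have hq' : q0 ≠ 0 := hq.ne'
  unfold gA
  rw [emb_seed, one_mul]
  simp only [map_div₀, map_mul, map_sub, map_add, map_one, emb_q, emb_t]
  rcases cases2 μ with rfl | rfl
  · unfold bR cR
    rw [sR_p2, sR_p2, sR_p2]
    field_simp
    ring
  · unfold bR cR
    rw [sR_p11, sR_p11, sR_p11]
    field_simp
    ring

theorem emb_B {q0 t0 : ℝ} (h : Good q0 t0) (μ : Nat.Partition 2) : emb h (gB 1 μ) = bR q0 t0 μ := by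
  unfold gB
  rw [emb_seed, one_mul]
  simp only [map_div₀, map_mul, map_sub, map_add, map_one, emb_q, emb_t]
  rfl

theorem emb_C {q0 t0 : ℝ} (h : Good q0 t0) (hq : 0 < q0) (ht : 0 < t0) (μ : Nat.Partition 2) :
    emb h (gC 1 μ) = 1 / q0 * cR q0 t0 μ := by
  have hn : 1 + q0 * t0 ≠ 0 := by positivity
  have hq' : q0 ≠ 0 := hq.ne'
  unfold gC
  rw [emb_seed, one_mul]
  simp only [map_div₀, map_mul, map_neg, map_add, map_one, emb_q, emb_t]
  rcases cases2 μ with rfl | rfl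
  · unfold cR
    rw [sR_p2, sR_p2]
    field_simp
  · unfold cR
    rw [sR_p11, sR_p11]
    field_simp

/-- the value of a polynomial -/
noncomputable def ev (P : MvPolynomial (Fin 2) ℕ) (q t : ℝ) : ℝ := P.eval₂ (Nat.castRingHom ℝ) ![q, t]

theorem ev_nonneg (P : MvPolynomial (Fin 2) ℕ) {q t : ℝ} (hq : 0 ≤ q) (ht : 0 ≤ t) : 0 ≤ ev P q t := by
  unfold ev
  induction P using MvPolynomial.induction_on with
  | C a => rw [eval₂_C]; exact Nat.cast_nonneg a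
  | add P Q hP hQ => rw [eval₂_add]; exact add_nonneg hP hQ
  | mul_X P n hP =>
    rw [eval₂_mul, eval₂_X]
    refine mul_nonneg hP ?_
    fin_cases n
    · exact hq
    · exact ht

theorem poly_nonneg (P : Polynomial ℕ) {q : ℝ} (hq : 0 ≤ q) : 0 ≤ (P.map (Nat.castRingHom ℝ)).eval q := by
  rw [Polynomial.eval_map, Polynomial.eval₂_eq_sum]
  exact Finset.sum_nonneg fun n _ => mul_nonneg (Nat.cast_nonneg _) (pow_nonneg hq n)

theorem emb_ff {σ : ℕ → QT} {s : QT} (h : Sg σ s) {Q : ℕ → ℕ → Module.End QT (MvPolynomial ℕ QT)} (hQ : IsHall qq tt Q)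
    {q0 t0 : ℝ} (hg : Good q0 t0) {Q' : ℕ → ℕ → Module.End ℝ (MvPolynomial ℕ ℝ)} (hQ' : IsHall q0 t0 Q')
    (c : Nat.Partition 2 → QT) (a b : ℕ) (ha : 1 ≤ a) (hb : 1 ≤ b) (n : ℕ) (ρ : Multiset ℕ) :
    emb hg (barCoeff (ff Q σ c a b) n ρ) =
      barCoeff (ff Q' (fun n => (-1 : ℝ) ^ (n + 1)) (fun μ => emb hg (tw s c μ)) a b) n ρ := by
  have e1 : ff Q σ c a b = ff Q (fun n => (-1 : QT) ^ (n + 1)) (tw s c) a b := by
    rw [ff_tw h, ff_corrected]
  have hQ2 : IsHall (emb hg qq) (emb hg tt) Q' := by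
    rw [emb_q, emb_t]
    exact hQ'
  rw [e1, map_bar, map_ff (emb hg) hM_QT hQ hQ2 _ (fun n => (-1 : ℝ) ^ (n + 1)) (fun n => by rw [map_pow, map_neg, map_one]) _ a b ha hb]

/-- the value of a polynomial -/
noncomputable def evZ (P : MvPolynomial (Fin 2) ℤ) (q t : ℝ) : ℝ := P.eval₂ (Int.castRingHom ℝ) ![q, t]

theorem half {σ : ℕ → QT} {s : QT} (h : Sg σ s) {Q : ℕ → ℕ → Module.End QT (MvPolynomial ℕ QT)} (hQ : IsHall qq tt Q)
    (c : Nat.Partition 2 → QT) (hc : KPos Q σ c) (a b : ℕ) (ha : 1 ≤ a) (hab : a ≤ b) (hcop : Nat.Coprime a b)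
    (ρ : Multiset ℕ) (N : MvPolynomial (Fin 2) ℤ) (hN : Dl Q σ c a b ρ = N.eval₂ (Int.castRingHom QT) ![qq, tt])
    (x : ℝ) (hx : 1 ≤ x) : 0 ≤ evZ N x 1 := by
  obtain ⟨_, _, _, ⟨A, rfl⟩, ⟨B, rfl⟩, ⟨C, rfl⟩, he⟩ := (classify h hQ c).1 hc
  have hs := h.sq
  have he' : tw s c = (A.eval₂ (Nat.castRingHom QT) ![qq, tt]) • gA 1 + (B.eval₂ (Nat.castRingHom QT) ![qq, tt]) • gB 1 +
      (C.eval₂ (Nat.castRingHom QT) ![qq, tt]) • gC 1 := by
    rw [he, tw_lin, tw_A hs, tw_B hs, tw_C hs]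
  obtain ⟨PB, hPB⟩ := lim_b a b ha hab hcop ρ
  obtain ⟨PC, hPC⟩ := lim_c a b ha hab hcop ρ
  have hfam : ∀ q0 : ℝ, q0 ≠ 1 → ∃ Qr : ℝ → ℕ → ℕ → Module.End ℝ (MvPolynomial ℕ ℝ), ∀ t : ℝ, t ≠ 1 → IsHall q0 t (Qr t) := by
    intro q0 hq
    have h1 : ∀ t : ℝ, ∃ Q : ℕ → ℕ → Module.End ℝ (MvPolynomial ℕ ℝ), t ≠ 1 → IsHall q0 t Q := by
      intro t
      by_cases ht : t = 1
      · exact ⟨fun _ _ => 0, fun h => absurd ht h⟩
      · obtain ⟨Q, hQ⟩ := exists_hall (q := q0) (t := t) (mul_ne_zero (sub_ne_zero.2 (Ne.symm hq)) (sub_ne_zero.2 (Ne.symm ht)))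
        exact ⟨Q, fun _ => hQ⟩
    choose Qr hQr using h1
    exact ⟨Qr, hQr⟩
  -- the identity at generic points
  have key : ∀ (q0 t0 : ℝ) (hg : Good q0 t0), 0 < q0 → 0 < t0 → ∀ Q' : ℕ → ℕ → Module.End ℝ (MvPolynomial ℕ ℝ), IsHall q0 t0 Q' →
      evZ N q0 t0 = (ev A q0 t0 + ev B q0 t0) * dl a b ρ Q' (bR q0 t0) +
        (ev A q0 t0 * ((q0 - t0) / q0) + ev C q0 t0 * (1 / q0)) * dl a b ρ Q' (cR q0 t0) := by
    intro q0 t0 hg hq ht Q' hQ'
    have h1 := congrArg (emb hg) hN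
    unfold Dl at h1
    rw [map_sub, emb_polyZ, emb_ff h hQ hg hQ' c a b ha (ha.trans hab), emb_ff h hQ hg hQ' c b a (ha.trans hab) ha] at h1
    unfold evZ
    rw [← h1]
    have h3 : (fun μ => emb hg (tw s c μ)) = (ev A q0 t0 + ev B q0 t0) • bR q0 t0 +
        (ev A q0 t0 * ((q0 - t0) / q0) + ev C q0 t0 * (1 / q0)) • cR q0 t0 := by
      funext μ
      rw [he']
      simp only [Pi.add_apply, Pi.smul_apply, smul_eq_mul, map_add, map_mul, emb_poly, emb_A hg hq ht, emb_B, emb_C hg hq ht]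
      unfold ev
      ring
    have h4 := dl_lin a b ρ Q' (ev A q0 t0 + ev B q0 t0) (ev A q0 t0 * ((q0 - t0) / q0) + ev C q0 t0 * (1 / q0)) (bR q0 t0) (cR q0 t0)
    rw [← h3] at h4
    exact h4
  -- first limit
  have lim1 : ∀ q0 : ℝ, Transcendental ℚ q0 → q0 ≠ 1 → 0 < q0 →
      evZ N q0 1 = (ev A q0 1 + ev B q0 1) * (PB.map (Nat.castRingHom ℝ)).eval q0 +
        (ev A q0 1 * ((q0 - 1) / q0) + ev C q0 1 * (1 / q0)) * (PC.map (Nat.castRingHom ℝ)).eval q0 := by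
    intro q0 htr hq1 hq
    obtain ⟨Qr, hQr⟩ := hfam q0 hq1
    have hev : ∀ P : MvPolynomial (Fin 2) ℕ, Tendsto (fun t => ev P q0 t) (𝓝[≠] (1 : ℝ)) (𝓝 (ev P q0 1)) := fun P =>
      ((cont_poly P q0).tendsto 1).mono_left nhdsWithin_le_nhds
    have hlin : Tendsto (fun t : ℝ => (q0 - t) / q0) (𝓝[≠] (1 : ℝ)) (𝓝 ((q0 - 1) / q0)) :=
      (((continuous_const.sub continuous_id).div_const q0).tendsto 1).mono_left nhdsWithin_le_nhds
    have hevN : Tendsto (fun t => evZ N q0 t) (𝓝[≠] (1 : ℝ)) (𝓝 (evZ N q0 1)) :=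
      ((cont_polyZ N q0).tendsto 1).mono_left nhdsWithin_le_nhds
    refine limit_unique (good_countable htr) hevN
      ((((hev A).add (hev B)).mul (hPB q0 hq hq1 Qr hQr)).add
        ((((hev A).mul hlin).add ((hev C).mul tendsto_const_nhds)).mul (hPC q0 hq hq1 Qr hQr))) ?_
    intro t ht ht1 ht0
    have hg : Good q0 t := by
      by_contra hng
      exact ht hng
    exact key q0 t hg hq ht0 (Qr t) (hQr t ht1)
  have hF : Continuous fun q : ℝ => evZ N q 1 := cont_polyZ' N 1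
  by_contra hneg
  have h1 : evZ N x 1 < 0 := not_le.1 hneg
  have h2 : {q : ℝ | evZ N q 1 < 0} ∈ 𝓝 x := (isOpen_lt hF continuous_const).mem_nhds h1
  obtain ⟨ε, hε, hball⟩ := Metric.mem_nhds_iff.1 h2
  have hd := trans_countable.dense_compl ℝ
  obtain ⟨q, hq1, hq2⟩ := hd.inter_open_nonempty (Set.Ioo x (x + ε)) isOpen_Ioo ⟨x + ε / 2, by constructor <;> linarith⟩
  have htr : Transcendental ℚ q := by
    by_contra hn
    exact hq2 hn
  have hqx : x < q := hq1.1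
  have hq0 : 0 < q := by linarith
  have hqn : q ≠ 1 := by intro h; rw [h] at hqx; linarith
  have h3 : q ∈ Metric.ball x ε := by
    rw [Metric.mem_ball, Real.dist_eq, abs_of_pos (by linarith)]
    have := hq1.2
    linarith
  have h4 : evZ N q 1 < 0 := hball h3
  rw [lim1 q htr hqn hq0] at h4
  have h5 := mul_nonneg (add_nonneg (ev_nonneg A hq0.le zero_le_one) (ev_nonneg B hq0.le zero_le_one)) (poly_nonneg PB hq0.le)
  have h6 : 0 ≤ (q - 1) / q := div_nonneg (by linarith) hq0.le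
  have h7 : 0 ≤ 1 / q := div_nonneg zero_le_one hq0.le
  have h8 := mul_nonneg (add_nonneg (mul_nonneg (ev_nonneg A hq0.le zero_le_one) h6) (mul_nonneg (ev_nonneg C hq0.le zero_le_one) h7))
    (poly_nonneg PC hq0.le)
  linarith

/-- the exchange of the variables of a polynomial -/
noncomputable def rn (P : MvPolynomial (Fin 2) ℤ) : MvPolynomial (Fin 2) ℤ := rename (Equiv.swap (0 : Fin 2) 1) P

theorem rn_sw (P : MvPolynomial (Fin 2) ℤ) :
    sw (P.eval₂ (Int.castRingHom QT) ![qq, tt]) = (rn P).eval₂ (Int.castRingHom QT) ![qq, tt] := by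
  unfold rn
  rw [eval₂_rename]
  have h1 := MvPolynomial.hom_eval₂ P (Int.castRingHom QT) (sw : QT →+* QT) ![qq, tt]
  change (sw : QT →+* QT) _ = _
  rw [h1]
  congr 1
  · exact RingHom.ext fun n => by simp
  · funext i
    fin_cases i
    · exact sw_q
    · exact sw_t

theorem rn_ev (P : MvPolynomial (Fin 2) ℤ) (q t : ℝ) : evZ (rn P) q t = evZ P t q := by
  unfold evZ rn
  rw [eval₂_rename]
  congr 1
  funext i
  fin_cases i <;> rfl

theorem half' {σ : ℕ → QT} {s : QT} (h : Sg σ s) {Q : ℕ → ℕ → Module.End QT (MvPolynomial ℕ QT)} (hQ : IsHall qq tt Q)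
    (c : Nat.Partition 2 → QT) (hc : KPos Q σ c) (a b : ℕ) (ha : 1 ≤ a) (hab : a ≤ b) (hcop : Nat.Coprime a b)
    (ρ : Multiset ℕ) (N : MvPolynomial (Fin 2) ℤ) (hN : Dl Q σ c a b ρ = N.eval₂ (Int.castRingHom QT) ![qq, tt])
    (x : ℝ) (hx : 1 ≤ x) : 0 ≤ evZ N 1 x := by
  have hσ : ∀ n, (sw : QT →+* QT) (σ n) = σ n := by
    intro n
    rcases h with ⟨rfl, _⟩ | ⟨rfl, _⟩
    · exact map_one _
    · change sw ((-1) ^ (n + 1)) = _
      rw [map_pow, map_neg, map_one]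
  have hQ' : IsHall ((sw : QT →+* QT) qq) ((sw : QT →+* QT) tt) Q := by
    change IsHall (sw qq) (sw tt) Q
    rw [sw_q, sw_t]
    exact hall_symm hQ
  have hff : ∀ a b : ℕ, 1 ≤ a → 1 ≤ b → map (sw : QT →+* QT) (ff Q σ c a b) = ff Q σ (fun μ => (sw : QT →+* QT) (c μ)) a b :=
    fun a b ha hb => map_ff (sw : QT →+* QT) hM_QT hQ hQ' σ σ hσ c a b ha hb
  have hc' : KPos Q σ (fun μ => (sw : QT →+* QT) (c μ)) := by
    intro k hk μ
    rw [← hff k 1 hk le_rfl]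
    have h1 := NN_sw (hc k hk μ)
    have h2 : sw (sc (ff Q σ c k 1) μ.parts) = sc (map (sw : QT →+* QT) (ff Q σ c k 1)) μ.parts := by
      unfold sc
      refine (map_hall (sw : QT →+* QT) _ _).trans ?_
      rw [map_schur]
    rw [← h2]
    exact h1
  have e1 : Dl Q σ (fun μ => (sw : QT →+* QT) (c μ)) a b ρ = (rn N).eval₂ (Int.castRingHom QT) ![qq, tt] := by
    rw [← rn_sw, ← hN]
    unfold Dl
    rw [← hff a b ha (ha.trans hab), ← hff b a (ha.trans hab) ha, ← map_bar, ← map_bar]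
    exact (map_sub (sw : QT →+* QT) _ _).symm
  have h3 := half h hQ _ hc' a b ha hab hcop ρ (rn N) e1 x hx
  rw [rn_ev] at h3
  exact h3

/-- for positive seeds the difference is a polynomial -/
theorem exists_poly {σ : ℕ → QT} {Q : ℕ → ℕ → Module.End QT (MvPolynomial ℕ QT)} (c : Nat.Partition 2 → QT)
    (hc : PosSeed qq tt Q σ c) (a b : ℕ) (ha : 1 ≤ a) (hb : 1 ≤ b) (hcop : Nat.Coprime a b) (ρ : Multiset ℕ) :
    ∃ N : MvPolynomial (Fin 2) ℤ, Dl Q σ c a b ρ = N.eval₂ (Int.castRingHom QT) ![qq, tt] := by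
  obtain ⟨N1, hN1⟩ := barCoeff_nn hc a b ha hb hcop ρ
  obtain ⟨N2, hN2⟩ := barCoeff_nn hc b a hb ha hcop.symm ρ
  have h : ∀ P : MvPolynomial (Fin 2) ℕ, (map (Nat.castRingHom ℤ) P).eval₂ (Int.castRingHom QT) ![qq, tt] =
      P.eval₂ (Nat.castRingHom QT) ![qq, tt] := by
    intro P
    rw [eval₂_map]
    congr 1
  refine ⟨map (Nat.castRingHom ℤ) N1 - map (Nat.castRingHom ℤ) N2, ?_⟩
  have h2 : (map (Nat.castRingHom ℤ) N1 - map (Nat.castRingHom ℤ) N2).eval₂ (Int.castRingHom QT) ![qq, tt] =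
      (map (Nat.castRingHom ℤ) N1).eval₂ (Int.castRingHom QT) ![qq, tt] - (map (Nat.castRingHom ℤ) N2).eval₂ (Int.castRingHom QT) ![qq, tt] :=
    map_sub (eval₂Hom (Int.castRingHom QT) ![qq, tt]) _ _
  rw [h2, h, h, ← hN1, ← hN2]
  rfl

end SD
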