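import Pool.Agent.Lib.MP_630b78_co.SD.Main
import Pool.Agent.Lib.MP_630b78_co.NG.DzA

/-!
# Base change and the exchange of `q` and `t`
-/

namespace SD

open MvPolynomial EllHall NG

section

variable {K : Type} [Field K] [CharZero K] {K' : Type} [Field K'] [CharZero K'] (τ : K →+* K')

omit [CharZero K] [CharZero K'] in
theorem map_ee (n : ℕ) : map τ (ee K n) = ee K' n := by
  induction n using Nat.strong_induction_on with
  | _ n ih =>
    cases n with
    | zero => rw [ee, ee, map_one]
    | succ n =>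
      rw [ee, ee, map_mul, map_C, map_sum, map_inv₀, map_natCast]
      congr 1
      refine Finset.sum_congr rfl fun i _ => ?_
      rw [map_mul, map_mul, map_pow, map_neg, map_one, map_X, ih _ (by omega)]

omit [CharZero K] [CharZero K'] in
theorem map_hh (n : ℕ) : map τ (hh K n) = hh K' n := by
  induction n using Nat.strong_induction_on with
  | _ n ih =>
    cases n with
    | zero => rw [hh, hh, map_one]
    | succ n =>
      rw [hh, hh, map_mul, map_C, map_sum, map_inv₀, map_natCast]
      congr 1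
      refine Finset.sum_congr rfl fun i _ => ?_
      rw [map_mul, map_X, ih _ (by omega)]

omit [CharZero K] [CharZero K'] in
theorem map_hz (z : ℤ) : map τ (hz K z) = hz K' z := by
  unfold hz
  split_ifs
  · exact map_hh τ _
  · exact map_zero _

omit [CharZero K] [CharZero K'] in
theorem map_schur (l : List ℕ) : map τ (schur K l) = schur K' l := by
  unfold schur
  rw [RingHom.map_det]
  congr 1
  ext1 i j
  rw [RingHom.mapMatrix_apply, Matrix.map_apply, Matrix.of_apply, Matrix.of_apply, map_hz]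

omit [CharZero K] [CharZero K'] in
theorem map_hall (g f : MvPolynomial ℕ K) : τ (hall g f) = hall (map τ g) (map τ f) := by
  unfold hall
  rw [support_map_of_injective g τ.injective, map_sum]
  refine Finset.sum_congr rfl fun m _ => ?_
  rw [map_mul, map_mul, map_natCast, coeff_map, coeff_map]

omit [CharZero K] [CharZero K'] in
theorem map_bar (g : MvPolynomial ℕ K) (n : ℕ) (ρ : Multiset ℕ) : τ (barCoeff g n ρ) = barCoeff (map τ g) n ρ := by
  unfold barCoeff sc
  rw [map_sum]
  refine Finset.sum_congr rfl fun μ _ => ?_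
  split_ifs
  · rw [map_hall, map_schur]
  · exact map_zero _

omit [CharZero K] [CharZero K'] in
theorem map_ez (z : ℤ) : map τ (ez K z) = ez K' z := by
  unfold ez
  split_ifs
  · rw [map_mul, map_pow, map_neg, map_one, map_ee]
  · exact map_zero _

omit [CharZero K] [CharZero K'] in
theorem map_Dz (q t : K) (g : MvPolynomial ℕ K) : ∀ k : ℤ, map τ (Dz q t k g) = Dz (τ q) (τ t) k (map τ g) := by
  induction g using MvPolynomial.induction_on with
  | C a =>
    intro k
    have h1 : (C a : MvPolynomial ℕ K) = a • 1 := by rw [smul_eq_C_mul, mul_one]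
    rw [h1, map_smul, Dz_one, smul_eq_C_mul, smul_eq_C_mul, map_mul, map_mul, map_C, map_one, mul_one, map_ez]
    have h2 : (C (τ a) : MvPolynomial ℕ K') = τ a • 1 := by rw [smul_eq_C_mul, mul_one]
    rw [h2, map_smul, Dz_one, smul_mul_assoc, one_mul]
  | add f g hf hg =>
    intro k
    rw [map_add, map_add, map_add, map_add, hf, hg]
  | mul_X g n hg =>
    intro k
    rw [mul_comm, Dz_X_mul, map_add, map_mul, map_X, map_mul, map_X, Dz_X_mul, smul_eq_C_mul, smul_eq_C_mul, map_mul, map_C, hg, hg]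
    congr 3
    simp only [map_mul, map_sub, map_one, map_pow]

omit [CharZero K] [CharZero K'] in
theorem map_D0 (q t : K) (g : MvPolynomial ℕ K) : map τ (D0 q t g) = D0 (τ q) (τ t) (map τ g) := by
  rw [D0_eq, D0_eq]
  exact map_Dz τ q t g 0

/-- the operators are compatible with base change -/
theorem map_Q {q t : K} (hM : (1 - q) * (1 - t) ≠ 0) {Q : ℕ → ℕ → Module.End K (MvPolynomial ℕ K)} (hQ : IsHall q t Q)
    {Q' : ℕ → ℕ → Module.End K' (MvPolynomial ℕ K')} (hQ' : IsHall (τ q) (τ t) Q') (s : ℕ) :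
    ∀ m n : ℕ, m + n = s → 1 ≤ m → 1 ≤ n → ∀ g, map τ (Q m n g) = Q' m n (map τ g) := by
  induction s using Nat.strong_induction_on with
  | _ s ih =>
    intro m n hs hm hn
    obtain ⟨d, hd⟩ : ∃ d, d = Nat.gcd m n := ⟨_, rfl⟩
    have hd1 : 1 ≤ d := by
      rw [hd]
      exact Nat.gcd_pos_of_pos_left _ hm
    obtain ⟨a, ha⟩ : ∃ a, m = a * d := by
      obtain ⟨a, ha⟩ := Nat.gcd_dvd_left m n
      rw [← hd] at ha
      exact ⟨a, by rw [ha, mul_comm]⟩
    obtain ⟨b, hb⟩ : ∃ b, n = b * d := by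
      obtain ⟨b, hb⟩ := Nat.gcd_dvd_right m n
      rw [← hd] at hb
      exact ⟨b, by rw [hb, mul_comm]⟩
    have hab : Nat.Coprime a b := by
      have h1 : d = Nat.gcd a b * d := by
        rw [← Nat.gcd_mul_right, ← ha, ← hb, ← hd]
      have h2 : 1 * d = Nat.gcd a b * d := by rw [one_mul]; exact h1
      exact (Nat.eq_of_mul_eq_mul_right hd1 h2).symm
    have ha1 : 1 ≤ a := by
      rcases Nat.eq_zero_or_pos a with h | h
      · rw [h, zero_mul] at ha
        omega
      · exact h
    have hb1 : 1 ≤ b := by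
      rcases Nat.eq_zero_or_pos b with h | h
      · rw [h, zero_mul] at hb
        omega
      · exact h
    obtain ⟨k, l, hk, hl1, hl2, hkl⟩ := EllHall.split a b ha1 hb1 hab
    have hstep := hQ.step a b k l d ha1 hb1 hd1 hk.le hl2 hkl
    have hstep' := hQ'.step a b k l d ha1 hb1 hd1 hk.le hl2 hkl
    have had : a ≤ a * d := Nat.le_mul_of_pos_right a hd1
    have hbd : b ≤ b * d := Nat.le_mul_of_pos_right b hd1
    have h1 : ∀ g, map τ (Q k l g) = Q' k l (map τ g) := by
      rcases Nat.eq_zero_or_pos k with h | h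
      · subst h
        have h2 : l = 1 := by
          rw [mul_zero, zero_add] at hkl
          exact Nat.eq_one_of_mul_eq_one_left hkl
        intro g
        rw [h2, hQ.q01, hQ'.q01, LinearMap.mulLeft_apply, LinearMap.mulLeft_apply, map_mul, map_X]
      · exact ih (k + l) (by omega) k l rfl h hl1
    have h2 : ∀ g, map τ (Q (a * d - k) (b * d - l) g) = Q' (a * d - k) (b * d - l) (map τ g) := by
      rcases Nat.eq_zero_or_pos (b * d - l) with h | h
      · have h3 : b * d = b := by omega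
        have h4 : l = b := by omega
        have h5 : d = 1 := by
          have h6 : b * d = b * 1 := by rw [mul_one]; exact h3
          exact Nat.eq_of_mul_eq_mul_left hb1 h6
        rw [h5, mul_one, mul_one, h4, Nat.sub_self]
        have h7 : b * (a - k) = 1 := by
          rw [Nat.mul_sub, ← h4]
          rw [← h4] at hkl
          rw [mul_comm l a]
          omega
        have h8 : a - k = 1 := Nat.eq_one_of_mul_eq_one_left h7
        intro g
        rw [h8, hQ.q10, hQ'.q10, LinearMap.neg_apply, LinearMap.neg_apply, map_neg, map_D0]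
      · exact ih (a * d - k + (b * d - l)) (by omega) (a * d - k) (b * d - l) rfl (by omega) h
    intro g
    have hM' : (1 - τ q) * (1 - τ t) ≠ 0 := by
      rw [← map_one τ, ← map_sub, ← map_sub, ← map_mul]
      exact (map_ne_zero τ).2 hM
    have h3 := congrArg (fun T : Module.End K (MvPolynomial ℕ K) => map τ (T g)) hstep
    have h4 := congrArg (fun T : Module.End K' (MvPolynomial ℕ K') => T (map τ g)) hstep'
    simp only [LinearMap.smul_apply, LinearMap.sub_apply, Module.End.mul_apply, map_sub, h1, h2] at h3 h4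
    rw [smul_eq_C_mul, map_mul, map_C, ← smul_eq_C_mul] at h3
    rw [ha, hb]
    have h5 : ((1 - τ q) * (1 - τ t)) • map τ (Q (a * d) (b * d) g) = ((1 - τ q) * (1 - τ t)) • Q' (a * d) (b * d) (map τ g) := by
      rw [h4, ← h3, map_mul, map_sub, map_sub, map_one]
    exact smul_right_injective _ hM' h5

theorem map_ff {q t : K} (hM : (1 - q) * (1 - t) ≠ 0) {Q : ℕ → ℕ → Module.End K (MvPolynomial ℕ K)} (hQ : IsHall q t Q)
    {Q' : ℕ → ℕ → Module.End K' (MvPolynomial ℕ K')} (hQ' : IsHall (τ q) (τ t) Q') (σ : ℕ → K) (σ' : ℕ → K') (hσ : ∀ n, τ (σ n) = σ' n)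
    {d : ℕ} (c : Nat.Partition d → K) (a b : ℕ) (ha : 1 ≤ a) (hb : 1 ≤ b) :
    map τ (ff Q σ c a b) = ff Q' σ' (fun μ => τ (c μ)) a b := by
  unfold ff
  rw [map_sum]
  refine Finset.sum_congr rfl fun μ _ => ?_
  rw [smul_eq_C_mul, map_mul, map_C, ← smul_eq_C_mul]
  congr 1
  unfold opProd
  have h : ∀ L : List ℕ, (∀ m ∈ L, 1 ≤ m) → ∀ g : MvPolynomial ℕ K, map τ ((L.map fun m => σ (b * m) • Q (a * m) (b * m)).prod g) =
      (L.map fun m => σ' (b * m) • Q' (a * m) (b * m)).prod (map τ g) := by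
    intro L
    induction L with
    | nil => intro _ g; rfl
    | cons m L ih =>
      intro hL g
      rw [List.map_cons, List.prod_cons, List.map_cons, List.prod_cons, Module.End.mul_apply, Module.End.mul_apply, LinearMap.smul_apply,
        LinearMap.smul_apply, smul_eq_C_mul, map_mul, map_C, ← smul_eq_C_mul, hσ]
      have hm := hL m (by simp)
      rw [map_Q τ hM hQ hQ' _ _ _ rfl (Nat.mul_pos ha hm) (Nat.mul_pos hb hm), ih (fun x hx => hL x (by simp [hx]))]
  rw [h _ ?_ 1, map_one]
  intro m hm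
  exact μ.parts_pos ((Multiset.mem_sort _).1 hm)

end

/-- the operators are symmetric in `q` and `t` -/
theorem hall_symm {K : Type} [Field K] {q t : K} {Q : ℕ → ℕ → Module.End K (MvPolynomial ℕ K)} (h : IsHall q t Q) : IsHall t q Q := by
  have e : D0 t q = D0 q t := by
    have h1 : shift t q = shift q t := by
      apply MvPolynomial.algHom_ext
      intro k
      simp only [shift, aeval_X]
      rw [mul_comm (1 - t ^ (k + 1))]
    apply LinearMap.ext
    intro g
    show (shift t q g).sum (fun n c => c * ((-1) ^ n * ee K n)) = (shift q t g).sum fun n c => c * ((-1) ^ n * ee K n)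
    rw [h1]
  refine ⟨by rw [h.q10, e], h.q01, ?_⟩
  intro a b k l d ha hb hd hk hl hdet
  rw [mul_comm (1 - t)]
  exact h.step a b k l d ha hb hd hk hl hdet

/-- the exchange of `q` and `t` -/
noncomputable def sw : QT ≃+* QT :=
  IsFractionRing.ringEquivOfRingEquiv (renameEquiv ℚ (Equiv.swap (0 : Fin 2) 1)).toRingEquiv

theorem sw_q : sw qq = tt := by
  unfold sw qq tt
  rw [IsFractionRing.ringEquivOfRingEquiv_algebraMap]
  congr 1
  exact (rename_X _ _).trans (by rw [Equiv.swap_apply_left])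

theorem sw_t : sw tt = qq := by
  unfold sw qq tt
  rw [IsFractionRing.ringEquivOfRingEquiv_algebraMap]
  congr 1
  exact (rename_X _ _).trans (by rw [Equiv.swap_apply_right])

theorem NN_sw {x : QT} (h : IsNN qq tt x) : IsNN qq tt (sw x) := by
  obtain ⟨P, rfl⟩ := h
  refine ⟨rename (Equiv.swap (0 : Fin 2) 1) P, ?_⟩
  rw [eval₂_rename]
  have h1 := MvPolynomial.hom_eval₂ P (Nat.castRingHom QT) (sw : QT →+* QT) ![qq, tt]
  change (sw : QT →+* QT) _ = _
  rw [h1]
  congr 1
  · exact RingHom.ext fun n => by simp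
  · funext i
    fin_cases i
    · exact sw_q
    · exact sw_t

theorem sw_seed (x y : QT) (μ : Nat.Partition 2) : sw (seed x y μ) = seed (sw x) (sw y) μ := by
  unfold seed
  split_ifs <;> rfl

theorem sw_gA {σ : ℕ → QT} {s : QT} (h : Sg σ s) (μ : Nat.Partition 2) : sw (gA s μ) = gB s μ := by
  have hs : sw s = s := by
    rcases h with ⟨_, rfl⟩ | ⟨_, rfl⟩
    · rw [map_neg, map_one]
    · rw [map_one]
  unfold gA gB
  rw [sw_seed]
  congr 1
  · rw [map_mul, map_div₀, map_mul, map_sub, map_add, map_mul, map_one, sw_q, sw_t, hs, mul_comm tt qq]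
  · rw [map_div₀, map_add, map_add, map_mul, map_one, sw_q, sw_t, mul_comm tt qq]

/-- the comparison for `gB` follows from the one for `gA` -/
theorem sw_ineq {σ : ℕ → QT} {s : QT} (h : Sg σ s) {Q : ℕ → ℕ → Module.End QT (MvPolynomial ℕ QT)} (hQ : IsHall qq tt Q)
    (a b : ℕ) (ha : 1 ≤ a) (hb : 1 ≤ b)
    (hA : ∀ ρ : Multiset ℕ, IsNN qq tt (Dl Q σ (gA s) a b ρ)) (ρ : Multiset ℕ) : IsNN qq tt (Dl Q σ (gB s) a b ρ) := by
  unfold Dl at hA ⊢
  have hσ : ∀ n, (sw : QT →+* QT) (σ n) = σ n := by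
    intro n
    rcases h with ⟨rfl, _⟩ | ⟨rfl, _⟩
    · exact map_one _
    · change sw ((-1) ^ (n + 1)) = _
      rw [map_pow, map_neg, map_one]
  have hQ' : IsHall ((sw : QT →+* QT) qq) ((sw : QT →+* QT) tt) Q := by
    change IsHall (sw qq) (sw tt) Q
    rw [sw_q, sw_t]
    exact hall_symm hQ
  have h1 : (fun μ => (sw : QT →+* QT) (gA s μ)) = gB s := by
    funext μ
    exact sw_gA h μ
  have h2 := map_ff (sw : QT →+* QT) hM_QT hQ hQ' σ σ hσ (gA s) a b ha hb
  have h3 := map_ff (sw : QT →+* QT) hM_QT hQ hQ' σ σ hσ (gA s) b a hb ha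
  rw [h1] at h2 h3
  have h4 := NN_sw (hA ρ)
  rw [map_sub] at h4
  have h5 := map_bar (sw : QT →+* QT) (ff Q σ (gA s) a b) (b * 2) ρ
  have h6 := map_bar (sw : QT →+* QT) (ff Q σ (gA s) b a) (a * 2) ρ
  rw [h2] at h5
  rw [h3] at h6
  rw [← h5, ← h6]
  exact h4

/-- the comparison for two seeds gives it for all seeds of degree two -/
theorem reduce_two {σ : ℕ → QT} {s : QT} (h : Sg σ s) {Q : ℕ → ℕ → Module.End QT (MvPolynomial ℕ QT)} (hQ : IsHall qq tt Q)
    (c : Nat.Partition 2 → QT) (hc : KPos Q σ c) (a b : ℕ) (ha : 1 ≤ a) (hb : 1 ≤ b)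
    (hA : ∀ ρ : Multiset ℕ, IsNN qq tt (Dl Q σ (gA s) a b ρ)) (hC : ∀ ρ : Multiset ℕ, IsNN qq tt (Dl Q σ (gC s) a b ρ))
    (ρ : Multiset ℕ) : IsNN qq tt (Dl Q σ c a b ρ) := by
  refine reduce h hQ c hc a b ?_ ρ
  intro g hg
  rcases hg with rfl | rfl | rfl
  · exact hA
  · exact sw_ineq h hQ a b ha hb hA
  · exact hC

end SD
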