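import Pool.Agent.Lib.MP_630b78_co.SD.Defs

/-!
# The values `f^(k,1)` in degree two
-/

namespace SD

open MvPolynomial EllHall

section

variable {K : Type} [Field K] [CharZero K] {q t : K} {T : ℕ → ℕ → Module.End K (MvPolynomial ℕ K)}

theorem schur2 : schur K [2] = C (2⁻¹ : K) * (X 0 ^ 2 + X 1) := by
  have h := schur_hook (K := K) 1 0
  simp only [List.replicate_zero] at h
  rw [show (1 + 1 : ℕ) = 2 from rfl] at h
  rw [h]
  have h1 := hh_succ (K := K) 0
  have h2 := hh_succ (K := K) 1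
  have h0 : hh K 0 = 1 := by rw [hh]
  have e0 : ee K 0 = 1 := by rw [ee]
  simp only [zero_add, Finset.sum_range_succ, Finset.sum_range_zero, Nat.sub_zero, h0, mul_one, Nat.cast_one, one_smul] at h1
  simp only [Finset.sum_range_succ, Finset.sum_range_zero, Nat.sub_zero, Nat.sub_self, zero_add, h0, h1, mul_one] at h2
  unfold hook
  simp only [zero_add, Finset.sum_range_one, pow_zero, one_mul, Nat.sub_zero, add_zero, e0, mul_one]
  have h3 : (((1 + 1 : ℕ) : K)) ≠ 0 := by norm_num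
  have h4 : hh K (1 + 1) = (((1 + 1 : ℕ) : K))⁻¹ • (X 0 * X 0 + X 1) := by
    rw [← h2, smul_smul, inv_mul_cancel₀ h3, one_smul]
  rw [h4, smul_eq_C_mul]
  norm_num
  ring

theorem schur11 : schur K [1, 1] = C (2⁻¹ : K) * (X 0 ^ 2 - X 1) := by
  have h := schur_ones (K := K) 1
  rw [show List.replicate (1 + 1) 1 = [1, 1] from rfl, JT_hook_zero_eq] at h
  rw [h]
  have h1 := ee_succ (K := K) 0
  have h2 := ee_succ (K := K) 1
  have e0 : ee K 0 = 1 := by rw [ee]
  simp only [zero_add, Finset.sum_range_succ, Finset.sum_range_zero, Nat.sub_zero, e0, mul_one, Nat.cast_one, one_smul,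
    pow_zero, one_mul] at h1
  simp only [Finset.sum_range_succ, Finset.sum_range_zero, Nat.sub_zero, Nat.sub_self, zero_add, e0, h1, mul_one, pow_zero, pow_one,
    one_mul] at h2
  have h3 : (((1 + 1 : ℕ) : K)) ≠ 0 := by norm_num
  have h4 : ee K (1 + 1) = (((1 + 1 : ℕ) : K))⁻¹ • (X 0 * X 0 + -1 * X 1) := by
    rw [← h2, smul_smul, inv_mul_cancel₀ h3, one_smul]
  rw [h4, smul_eq_C_mul]
  norm_num
  ring

theorem hall_sq (f : MvPolynomial ℕ K) : hall (X 0 ^ 2) f = constantCoeff (pderiv 0 (pderiv 0 f)) := by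
  have h : (X 0 ^ 2 : MvPolynomial ℕ K) = X 0 * (X 0 * 1) := by ring
  rw [h, hall_X_mul, hall_X_mul, hall_one]
  simp

theorem hall_p2 (f : MvPolynomial ℕ K) : hall (X 1) f = 2 * constantCoeff (pderiv 1 f) := by
  have h : (X 1 : MvPolynomial ℕ K) = X 1 * 1 := by ring
  rw [h, hall_X_mul, hall_one]
  rw [show ((1 + 1 : ℕ) : K) = 2 by norm_num, smul_eq_C_mul, map_mul, constantCoeff_C]

theorem hall_lin (x y z w : K) : hall (x • (C (2⁻¹ : K) * (X 0 ^ 2 + X 1)) + y • (C (2⁻¹ : K) * (X 0 ^ 2 - X 1)))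
    (z • (C (2⁻¹ : K) * (X 0 ^ 2 + X 1)) + w • (C (2⁻¹ : K) * (X 0 ^ 2 - X 1))) = x * z + y * w := by
  have h0 : ∀ a b : K, hall (X 0 ^ 2) (a • (X 0 ^ 2 : MvPolynomial ℕ K) + b • X 1) = 2 * a := by
    intro a b
    rw [hall_sq]
    have hc : constantCoeff (2 : MvPolynomial ℕ K) = 2 := map_ofNat _ 2
    simp [smul_eq_C_mul, mul_comm, hc]
  have h1 : ∀ a b : K, hall (X 1) (a • (X 0 ^ 2 : MvPolynomial ℕ K) + b • X 1) = 2 * b := by
    intro a b
    rw [hall_p2]
    simp [smul_eq_C_mul]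
  have e1 : ∀ a b : K, a • (C (2⁻¹ : K) * (X 0 ^ 2 + X 1)) + b • (C (2⁻¹ : K) * (X 0 ^ 2 - X 1)) =
      (2⁻¹ * (a + b)) • (X 0 ^ 2 : MvPolynomial ℕ K) + (2⁻¹ * (a - b)) • X 1 := by
    intro a b
    simp only [smul_eq_C_mul, map_mul, map_add, map_sub]
    ring
  rw [e1 x y, e1 z w, hall_add_left, hall_smul_left, hall_smul_left, h0, h1]
  field_simp
  ring

theorem sc_two (x y : K) : sc (x • schur K [2] + y • schur K [1, 1]) {2} = x := by
  unfold sc
  rw [show (({2} : Multiset ℕ).sort (· ≥ ·)) = [2] by rw [Multiset.sort_singleton], schur2, schur11]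
  have h := hall_lin x y 1 0
  rw [one_smul, zero_smul, add_zero] at h
  rw [h]
  ring

theorem sc_11 (x y : K) : sc (x • schur K [2] + y • schur K [1, 1]) {1, 1} = y := by
  unfold sc
  rw [show (({1, 1} : Multiset ℕ).sort (· ≥ ·)) = [1, 1] from sort_ones 2, schur2, schur11]
  have h := hall_lin x y 0 1
  rw [one_smul, zero_smul, zero_add] at h
  rw [h]
  ring

theorem HH2 : HH q t 2 = schur K [2] + q • schur K [1, 1] := by
  rw [schur2, schur11, smul_eq_C_mul]
  rfl

theorem HH3 : HH q t 3 = schur K [2] + t • schur K [1, 1] := by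
  rw [schur2, schur11, smul_eq_C_mul]
  rfl

theorem T_HH0 (hM : (1 - q) * (1 - t) ≠ 0) (hT : IsT q t T) (m : ℕ) : T m 1 (HH q t 0) = HH q t 1 := by
  induction m with
  | zero => rw [hT.t01, LinearMap.mulLeft_apply, mul_HH0]
  | succ m ih =>
    rw [op_m1 hM hT, hT.t10, LinearMap.smul_apply, LinearMap.sub_apply, Module.End.mul_apply, Module.End.mul_apply, D0_HH, map_smul,
      ih, D0_HH, ← sub_smul, smul_smul]
    have h : ((1 - q) * (1 - t))⁻¹ * (1 - (1 - q) * (1 - t) * bb q t 0 - (1 - (1 - q) * (1 - t) * bb q t 1)) = 1 := by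
      have h0 : bb q t 0 = 0 := rfl
      have h1 : bb q t 1 = 1 := rfl
      rw [h0, h1, mul_zero, sub_zero, mul_one, sub_sub_cancel, inv_mul_cancel₀ hM]
    rw [h, one_smul]

theorem T_HH1 (hM : (1 - q) * (1 - t) ≠ 0) (h1 : q ≠ t) (hT : IsT q t T) (m : ℕ) :
    T m 1 (HH q t 1) = ((1 - t) / (q - t) * q ^ m) • HH q t 2 + ((1 - q) / (t - q) * t ^ m) • HH q t 3 := by
  induction m with
  | zero => rw [hT.t01, LinearMap.mulLeft_apply, mul_HH1 q t h1, pow_zero, pow_zero, mul_one, mul_one]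
  | succ m ih =>
    rw [op_m1 hM hT, hT.t10, LinearMap.smul_apply, LinearMap.sub_apply, Module.End.mul_apply, Module.End.mul_apply, D0_HH, map_smul,
      ih, map_add, map_smul, map_smul, D0_HH, D0_HH]
    have b1 : bb q t 1 = 1 := rfl
    have b2 : bb q t 2 = 1 + q := rfl
    have b3 : bb q t 3 = 1 + t := rfl
    rw [b1, b2, b3]
    simp only [smul_add, smul_sub, smul_smul]
    have hM1 : (1 - q) ≠ 0 := left_ne_zero_of_mul hM
    have hM2 : (1 - t) ≠ 0 := right_ne_zero_of_mul hM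
    have hqt : q - t ≠ 0 := sub_ne_zero.2 h1
    have htq : t - q ≠ 0 := sub_ne_zero.2 h1.symm
    have e2 : ∀ (a1 a2 b1 b2 a' b' : K) (x y : MvPolynomial ℕ K), a1 - a2 = a' → b1 - b2 = b' →
        a1 • x + b1 • y - (a2 • x + b2 • y) = a' • x + b' • y := by
      intro a1 a2 b1 b2 a' b' x y h h'
      rw [← h, ← h', sub_smul, sub_smul]
      abel
    refine e2 _ _ _ _ _ _ _ _ ?_ ?_
    · field_simp
      ring
    · field_simp
      ring

/-- the partition `(2)` -/
def p2 : Nat.Partition 2 := ⟨{2}, by simp, by simp⟩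

/-- the partition `(1,1)` -/
def p11 : Nat.Partition 2 := ⟨{1, 1}, by simp, by simp⟩

theorem cases2 (μ : Nat.Partition 2) : μ = p2 ∨ μ = p11 := by
  rcases parts_cases 2 (by norm_num) μ with h | ⟨j, h1, h2, h3⟩
  · right
    exact Nat.Partition.ext h
  · left
    have hj : j = 1 := by omega
    subst hj
    exact Nat.Partition.ext h3

theorem sum2 {A : Type} [AddCommMonoid A] (F : Nat.Partition 2 → A) : ∑ μ : Nat.Partition 2, F μ = F p2 + F p11 := by
  have h : (Finset.univ : Finset (Nat.Partition 2)) = {p2, p11} := by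
    ext μ
    simp only [Finset.mem_univ, Finset.mem_insert, Finset.mem_singleton, true_iff]
    exact cases2 μ
  have hne : p2 ≠ p11 := by
    intro h
    have h1 := congrArg (fun μ : Nat.Partition 2 => Multiset.card μ.parts) h
    simp [p2, p11] at h1
  rw [h, Finset.sum_pair hne]

/-- the coefficient of `s_2` in `f^(m+1,1)` -/
noncomputable def xx (q t c2 c11 : K) (m : ℕ) : K :=
  (c2 * (((1 - q) * (1 - t))⁻¹ * ((1 - t) / (q - t) * (1 - q ^ 2))) + c11 * ((1 - t) / (q - t) * q)) * q ^ m +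
    (c2 * (((1 - q) * (1 - t))⁻¹ * ((1 - q) / (t - q) * (1 - t ^ 2))) + c11 * ((1 - q) / (t - q) * t)) * t ^ m

omit [CharZero K] in
theorem xx_rec (c2 c11 : K) (m : ℕ) : xx q t c2 c11 (m + 2) + q * t * xx q t c2 c11 m = (q + t) * xx q t c2 c11 (m + 1) := by
  unfold xx
  ring

theorem ff_val (hM : (1 - q) * (1 - t) ≠ 0) (h1 : q ≠ t) (hT : IsT q t T) (c : Nat.Partition 2 → K) (m : ℕ) :
    ff T (fun _ => (1 : K)) c (m + 1) 1 = xx q t (c p2) (c p11) m • schur K [2] + xx q t (c p2) (c p11) (m + 1) • schur K [1, 1] := by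
  unfold ff
  rw [sum2]
  have hp2 : opProd T (fun _ => (1 : K)) (m + 1) 1 p2.parts = T (2 * m + 2) 2 := by
    unfold opProd
    rw [show p2.parts.sort (· ≥ ·) = [2] by change (({2} : Multiset ℕ).sort (· ≥ ·)) = [2]; rw [Multiset.sort_singleton]]
    simp only [List.map_cons, List.map_nil, List.prod_cons, List.prod_nil, mul_one, one_smul]
    rw [show (m + 1) * 2 = 2 * m + 2 by ring, show 1 * 2 = 2 from rfl]
  have hp11 : opProd T (fun _ => (1 : K)) (m + 1) 1 p11.parts = T (m + 1) 1 * T (m + 1) 1 := by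
    unfold opProd
    rw [show p11.parts.sort (· ≥ ·) = [1, 1] from sort_ones 2]
    simp only [List.map_cons, List.map_nil, List.prod_cons, List.prod_nil, mul_one, one_smul]
  rw [hp2, hp11, op_even2 hM hT]
  have hone : (1 : MvPolynomial ℕ K) = HH q t 0 := rfl
  rw [hone, LinearMap.smul_apply, LinearMap.sub_apply, Module.End.mul_apply, Module.End.mul_apply, Module.End.mul_apply,
    T_HH0 hM hT, T_HH0 hM hT, T_HH0 hM hT, T_HH1 hM h1 hT, T_HH1 hM h1 hT, T_HH1 hM h1 hT, HH2, HH3]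
  unfold xx
  generalize schur K [2] = S
  generalize schur K [1, 1] = S'
  generalize ((1 - q) * (1 - t))⁻¹ = Mi
  generalize (1 - t) / (q - t) = α
  generalize (1 - q) / (t - q) = β
  simp only [smul_add, smul_sub, smul_eq_C_mul, map_mul, map_add, map_sub, map_pow, map_one]
  ring

end

end SD
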